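import Pool.Agent.Y882.SI.Few
import Pool.Agent.Y882.KW.Core4

/-! The weighted sieve for the values of a polynomial in short intervals: few exceptions. -/

set_option autoImplicit false

namespace Pool.Agent.Y882.SI

open Finset Polynomial Filter
open Pool.Agent.W23.DC
open Pool.Agent.Y882.PX
open Pool.Agent.Y882.KW

/-- the number of the `n` in `(N, N + h]` at which the weight is positive -/
noncomputable def pos (F : ℤ[X]) (Y : ℕ) (ζ υ aw bw : ℝ) (h N : ℕ) : Finset ℕ :=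
  (Icc 1 h).filter (fun j => 0 < WW Y ζ υ aw bw (F.eval ((N + j : ℕ) : ℤ)).natAbs)

/-- the local factor -/
noncomputable def lo (F : ℤ[X]) (Z : ℕ) : ℝ :=
  ∏ p ∈ (Icc 1 Z).filter Nat.Prime, (1 - (ro F 0 p : ℝ) / p)

open Classical in
/-- **The weighted sieve in short intervals.** -/
theorem engI (K : ℕ) (β τ ζ υ aw bw ε : ℝ) (hβ : 0 < β) (hζ : 0 < ζ) (h2 : 2 * ζ < τ)
    (h4 : τ ≤ 4 * ζ) (hτ : τ < 1) (hζυ : ζ ≤ υ) (hυτ : υ < τ) (ha : 0 ≤ aw) (hb : 0 ≤ bw)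
    (hab : bw * υ ≤ aw)
    (hJ0 : ∫ x in ζ..υ, (aw - bw * x) / (τ - x) / x < Real.log (τ / ζ - 1) / τ) (hε : 0 < ε) :
    ∃ δ ε₁ η : ℝ, 0 < δ ∧ 0 < ε₁ ∧ ε₁ ≤ ζ ∧ ε₁ ≤ β ∧ 0 < η ∧ ∃ Y0 : ℕ, ∀ Y : ℕ, Y0 ≤ Y →
      ∀ (F : ℤ[X]) (X h Z : ℕ), (∀ p : ℕ, p.Prime → ro F 0 p ≤ K) → 0 < h → (Y : ℝ) ^ β ≤ Z →
        Mer (pr Y ε₁ υ) (tt Y) (fun p => (ro F 0 p : ℝ) / p) ε₁ υ η →
        (((Icc 1 X).filter (fun N => ((pos F Y ζ υ aw bw h N).card : ℝ) <
          δ * h * lo F Z)).card : ℝ) ≤ (X + (Y : ℝ) ^ (2 * τ)) / h * (Y : ℝ) ^ ε := by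
  obtain ⟨s, hs0, hs1, hs2⟩ : ∃ s : ℝ, 0 < s ∧ s ≤ ε / 4 ∧ s ≤ 1 - τ :=
    ⟨min (ε / 4) (1 - τ), lt_min (by linarith) (by linarith), min_le_left _ _, min_le_right _ _⟩
  set τ' : ℝ := τ + s with hτ'
  have hττ' : τ < τ' := by linarith
  obtain ⟨δ, ε₁, η, hδ, hε₁, hε₁ζ, hε₁β, hη, Y1, HC⟩ :=
    core4 K τ ζ υ aw bw τ' β (ε / 16) hζ h2 h4 hτ.le hζυ hυτ ha hb hab hJ0 hττ' hβ (by linarith)
  obtain ⟨Y2, HE⟩ := few_errI K τ' ε (by linarith) (by linarith) hε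
  have ev1 : ∀ᶠ Y : ℕ in atTop, 5 * Real.log Y ≤ (Y : ℝ) ^ (ε / 64) := by
    have h1 := (isLittleO_log_rpow_atTop (show 0 < ε / 64 by linarith)).bound
      (show (0 : ℝ) < 1 / 5 by norm_num)
    filter_upwards [tendsto_natCast_atTop_atTop.eventually h1, eventually_ge_atTop 1] with Y hY hY1
    have hY1r : (1 : ℝ) ≤ Y := by exact_mod_cast hY1
    rw [Real.norm_of_nonneg (Real.log_nonneg hY1r), Real.norm_of_nonneg (by positivity)] at hY
    linarith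
  obtain ⟨Y3, hY3⟩ := eventually_atTop.1 (ev1.and (eventually_ge_atTop 3))
  refine ⟨δ, ε₁, η, hδ, hε₁, hε₁ζ, hε₁β, hη, max Y1 (max Y2 Y3), ?_⟩
  intro Y hY F X h Z hK hh hZ hmer
  have hYY1 : Y1 ≤ Y := (le_max_left _ _).trans hY
  have hYY2 : Y2 ≤ Y := ((le_max_left _ _).trans (le_max_right _ _)).trans hY
  obtain ⟨e1, e3⟩ := hY3 Y (((le_max_right _ _).trans (le_max_right _ _)).trans hY)
  have hYr : (3 : ℝ) ≤ Y := by exact_mod_cast e3
  have hY0 : (0 : ℝ) < Y := by linarith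
  have hY1r : (1 : ℝ) ≤ Y := by linarith
  have hh0 : (0 : ℝ) < h := by exact_mod_cast hh
  obtain ⟨c, hcL, hcD, hcM⟩ := HC Y hYY1
  have hPZ : ∀ p ∈ PZ Y υ, p.Prime := by
    intro p hp
    unfold PZ at hp
    rw [mem_filter] at hp
    exact hp.2.1
  have hA := HE Y hYY2 F (PZ Y υ) c X h hPZ (fun p hp => hK p (hPZ p hp))
    (fun T => (hcL T).trans e1) hcD hh
  have hsub : (Icc 1 X).filter (fun N => ((pos F Y ζ υ aw bw h N).card : ℝ) <
          δ * h * lo F Z) ⊆ (Icc 1 X).filter (fun N => (h : ℝ) * (Y : ℝ) ^ (-(ε / 16)) <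
        |∑ T ∈ (PZ Y υ).powerset, c T * ri F (∏ p ∈ T, p) h N|) := by
    intro N hN
    rw [mem_filter] at hN ⊢
    refine ⟨hN.1, ?_⟩
    by_contra hcon
    push Not at hcon
    apply absurd hN.2 (not_lt.2 _)
    have hcard : (Icc 1 h).card = h := by simp
    have key := hcM (Icc 1 h) (fun j => (F.eval ((N + j : ℕ) : ℤ)).natAbs) (fun p => ro F 0 p) Z
      hZ hK (fun p _ => ro_le_self F 0 p) hmer (by
        rw [hcard]
        refine le_trans (le_of_eq ?_) hcon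
        congr 1
        apply sum_congr rfl
        intro T hT
        rw [mem_powerset] at hT
        congr 1
        have e5 : (Icc 1 h).filter (fun j : ℕ => ∏ p ∈ T, p ∣ (F.eval ((N + j : ℕ) : ℤ)).natAbs) =
            (Icc 1 h).filter (fun j : ℕ => ((∏ p ∈ T, p : ℕ) : ℤ) ∣ F.eval ((N + j : ℕ) : ℤ)) := by
          apply filter_congr
          intro j _
          exact Int.natCast_dvd.symm
        unfold ri ci
        rw [e5, ro_prod F 0 T (fun p hp => hPZ p (hT hp))]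
        push_cast
        rw [prod_div_distrib]
        ring)
    rw [hcard] at key
    exact key
  calc (((Icc 1 X).filter (fun N => ((pos F Y ζ υ aw bw h N).card : ℝ) <
          δ * h * lo F Z)).card : ℝ) ≤ _ := by exact_mod_cast card_le_card hsub
    _ ≤ _ := hA
    _ ≤ ((X + (Y : ℝ) ^ (2 * τ)) * (Y : ℝ) ^ (ε / 2)) / h * (Y : ℝ) ^ (ε / 2) := by
        apply mul_le_mul_of_nonneg_right _ (by positivity)
        apply div_le_div_of_nonneg_right _ hh0.le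
        have h1 : (Y : ℝ) ^ (2 * τ') ≤ (Y : ℝ) ^ (2 * τ) * (Y : ℝ) ^ (ε / 2) := by
          rw [← Real.rpow_add hY0]
          exact Real.rpow_le_rpow_of_exponent_le hY1r (by linarith)
        have h3 : (1 : ℝ) ≤ (Y : ℝ) ^ (ε / 2) := Real.one_le_rpow hY1r (by linarith)
        have h4 : (0 : ℝ) ≤ X := Nat.cast_nonneg _
        nlinarith
    _ = (X + (Y : ℝ) ^ (2 * τ)) / h * ((Y : ℝ) ^ (ε / 2) * (Y : ℝ) ^ (ε / 2)) := by ring
    _ = _ := by
        rw [← Real.rpow_add hY0]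
        congr 2
        ring

end Pool.Agent.Y882.SI
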