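import Pool.Agent.H364R2.EC_SwTail
import Pool.Agent.H474R2.GE.FA
import Pool.Agent.W378.DC.MP
import Pool.Agent.Y882.SI.Eng

/-! The densities of the polynomial `X ^ 2 + a`. -/

set_option autoImplicit false

namespace Pool.Agent.Y882.SI

open Finset Polynomial Filter
open Pool.Agent.W23.DC
open Pool.Agent.Y882.PX
open Pool.Agent.H300R2.EC (Sd)
open Pool.Agent.W378.DC.TMP

/-- the polynomial `X ^ 2 + a` -/
noncomputable def QF (a : ℤ) : ℤ[X] := X ^ 2 + C a

theorem QF_eval (a n : ℤ) : (QF a).eval n = n ^ 2 + a := by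
  unfold QF
  simp

theorem ro_quad (a : ℤ) (p : ℕ) (hp : p.Prime) (h2 : p ≠ 2) :
    (ro (QF a) 0 p : ℤ) = 1 + jacobiSym (-a) p := by
  have : Fact p.Prime := ⟨hp⟩
  rw [← jacobiSym.legendreSym.to_jacobiSym, add_comm, ← legendreSym.card_sqrts p h2 (-a)]
  rw [ro_eq]
  congr 1
  apply card_bij' (i := fun (n : ℕ) _ => (n : ZMod p)) (j := fun (x : ZMod p) _ => x.val)
  · intro n hn
    rw [mem_filter, mem_range, QF_eval, add_zero] at hn
    rw [Set.mem_toFinset, Set.mem_setOf_eq]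
    have h1 := (ZMod.intCast_zmod_eq_zero_iff_dvd ((n : ℤ) ^ 2 + a) p).2 hn.2
    push_cast at h1 ⊢
    linear_combination h1
  · intro x hx
    rw [Set.mem_toFinset, Set.mem_setOf_eq] at hx
    rw [mem_filter, mem_range, QF_eval, add_zero]
    refine ⟨ZMod.val_lt x, ?_⟩
    rw [← ZMod.intCast_zmod_eq_zero_iff_dvd]
    push_cast at hx ⊢
    rw [ZMod.natCast_zmod_val, hx]
    ring
  · intro n hn
    rw [mem_filter, mem_range] at hn
    exact ZMod.val_cast_of_lt hn.1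
  · intro x _
    exact ZMod.natCast_zmod_val x

theorem ro_quad_le (a : ℤ) (p : ℕ) (hp : p.Prime) : ro (QF a) 0 p ≤ 2 := by
  by_cases h2 : p = 2
  · rw [h2]
    exact ro_le_self _ _ _
  · have h1 := ro_quad a p hp h2
    have h3 : jacobiSym (-a) p ≤ 1 := by
      rcases jacobiSym.trichotomy (-a) p with h | h | h <;> rw [h] <;> norm_num
    omega

theorem ro_quad_two (a : ℤ) : ro (QF a) 0 2 = 1 := by
  rw [ro_eq]
  have h1 : (range 2).filter (fun n : ℕ => ((2 : ℕ) : ℤ) ∣ (QF a).eval (n : ℤ) + 0) =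
      {(a % 2).toNat} := by
    ext n
    rw [mem_filter, mem_range, mem_singleton, QF_eval, add_zero]
    constructor
    · rintro ⟨h, h'⟩
      interval_cases n
      · push_cast at h'
        omega
      · push_cast at h'
        omega
    · intro h
      have h2 : (a % 2).toNat < 2 := by omega
      refine ⟨by omega, ?_⟩
      rcases Int.emod_two_eq_zero_or_one a with h3 | h3
      · rw [h, h3]
        simp
        omega
      · rw [h, h3]
        simp
        omega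
  rw [h1, card_singleton]

theorem Sd_split (D : ℤ) (P Q R : ℕ) (h1 : P ≤ Q) (h2 : Q ≤ R) : Sd D P R = Sd D P Q + Sd D Q R := by
  unfold Sd
  rw [← sum_union]
  · congr 1
    ext p
    simp only [mem_union, mem_filter, mem_Ioc]
    constructor
    · rintro ⟨⟨h3, h4⟩, h5⟩
      rcases le_or_gt p Q with h | h
      · exact Or.inl ⟨⟨h3, h⟩, h5⟩
      · exact Or.inr ⟨⟨h, h4⟩, h5⟩
    · rintro (⟨⟨h3, h4⟩, h5⟩ | ⟨⟨h3, h4⟩, h5⟩)
      · exact ⟨⟨h3, by omega⟩, h5⟩
      · exact ⟨⟨by omega, h4⟩, h5⟩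
  · rw [disjoint_left]
    intro p hp hp'
    rw [mem_filter, mem_Ioc] at hp hp'
    omega

theorem dyad (D : ℤ) (hD : ¬ IsSquare D) : ∃ P0 : ℕ, 2 ≤ P0 ∧ ∀ k P Q : ℕ, P0 ≤ P → P ≤ Q →
    Q ≤ 2 ^ k * P → |Sd D P Q| ≤ k / Real.log P ^ 2 := by
  obtain ⟨P1, h1⟩ := Pool.Agent.H364R2.EC.sw_tail 2 1
  obtain ⟨P2, h2⟩ := eventually_atTop.1 ((Real.tendsto_log_atTop.comp
    tendsto_natCast_atTop_atTop).eventually_ge_atTop (4 * |(D : ℝ)|))
  refine ⟨max (max P1 P2) 2, le_max_right _ _, ?_⟩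
  intro k
  induction k with
  | zero =>
    intro P Q hP hPQ hQ
    rw [pow_zero, one_mul] at hQ
    have : P = Q := by omega
    subst this
    unfold Sd
    simp
  | succ k ih =>
    intro P Q hP hPQ hQ
    have hP1 : P1 ≤ P := ((le_max_left _ _).trans (le_max_left _ _)).trans hP
    have hP2 : P2 ≤ P := ((le_max_right _ _).trans (le_max_left _ _)).trans hP
    have hP3 : 2 ≤ P := (le_max_right _ _).trans hP
    have hP3r : (2 : ℝ) ≤ P := by exact_mod_cast hP3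
    have hl : 0 < Real.log P := Real.log_pos (by linarith)
    have h3 : 4 * |(D : ℝ)| ≤ Real.log P ^ 1 := by
      rw [pow_one]
      exact h2 P hP2
    rcases le_or_gt Q (2 * P) with h | h
    · refine (h1 P hP1 Q hPQ h D hD h3).trans ?_
      push_cast
      apply div_le_div_of_nonneg_right _ (by positivity)
      have : (0 : ℝ) ≤ k := Nat.cast_nonneg _
      linarith
    · have h4 := h1 P hP1 (2 * P) (by omega) le_rfl D hD h3
      have h5 := ih (2 * P) Q (by omega) h.le (by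
        calc Q ≤ 2 ^ (k + 1) * P := hQ
          _ = 2 ^ k * (2 * P) := by ring)
      rw [Sd_split D P (2 * P) Q (by omega) h.le]
      have h6 : Real.log P ≤ Real.log ((2 * P : ℕ) : ℝ) := by
        apply Real.log_le_log (by linarith)
        push_cast
        linarith
      calc |Sd D P (2 * P) + Sd D (2 * P) Q| ≤ |Sd D P (2 * P)| + |Sd D (2 * P) Q| := abs_add_le _ _
        _ ≤ 1 / Real.log P ^ 2 + k / Real.log ((2 * P : ℕ) : ℝ) ^ 2 := add_le_add h4 h5
        _ ≤ 1 / Real.log P ^ 2 + k / Real.log P ^ 2 := by gcongr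
        _ = _ := by
            push_cast
            ring

/-- the densities of `X ^ 2 + a` are regular -/
theorem mer_quad (a : ℤ) (ha : ¬ IsSquare (-a)) (ε₁ υ η : ℝ) (hε : 0 < ε₁) (hυ : υ ≤ 1)
    (hη : 0 < η) : ∃ Y0 : ℕ, ∀ Y : ℕ, Y0 ≤ Y →
      Mer (pr Y ε₁ υ) (tt Y) (fun p => (ro (QF a) 0 p : ℝ) / p) ε₁ υ η := by
  classical
  obtain ⟨N1, hN1⟩ := Pool.Agent.W378.DC.MP ε₁ (η / 3) hε (by linarith)
  obtain ⟨P0, hP02, hP0⟩ := dyad (-a) ha
  have ev1 : ∀ᶠ Y : ℕ in atTop, (max (P0 : ℝ) (3 / η)) + 3 ≤ (Y : ℝ) ^ ε₁ :=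
    ((tendsto_rpow_atTop hε).comp tendsto_natCast_atTop_atTop).eventually_ge_atTop _
  have ev2 : ∀ᶠ Y : ℕ in atTop, 36 / (ε₁ ^ 2 * η) + 3 ≤ Real.log Y :=
    (Real.tendsto_log_atTop.comp tendsto_natCast_atTop_atTop).eventually_ge_atTop _
  have ev3 : ∀ᶠ Y : ℕ in atTop, 2 ≤ (Y : ℝ) ^ (ε₁ / 2) :=
    ((tendsto_rpow_atTop (by linarith)).comp tendsto_natCast_atTop_atTop).eventually_ge_atTop _
  obtain ⟨Y1, hY1⟩ := eventually_atTop.1 (ev1.and (ev2.and (ev3.and (eventually_ge_atTop 3))))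
  refine ⟨max N1 Y1, fun Y hY => ?_⟩
  obtain ⟨e1, e2, e3, e4⟩ := hY1 Y ((le_max_right _ _).trans hY)
  have hYN1 : N1 ≤ Y := (le_max_left _ _).trans hY
  have hYr : (3 : ℝ) ≤ Y := by exact_mod_cast e4
  have hY0 : (0 : ℝ) < Y := by linarith
  have hY1r : (1 : ℝ) < Y := by linarith
  intro u v hu huv hv
  have hv1 : v ≤ 1 := hv.trans hυ
  have hset : (pr Y ε₁ υ).filter (fun p => u ≤ tt Y p ∧ tt Y p < v) = pr Y u v := by
    ext p
    unfold pr
    rw [mem_filter, mem_filter, mem_filter]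
    constructor
    · rintro ⟨⟨h1, h2, h3, h4⟩, h5, h6⟩
      exact ⟨h1, h2, h5, h6⟩
    · rintro ⟨h1, h2, h5, h6⟩
      exact ⟨⟨h1, h2, hu.trans h5, h6.trans_le hv⟩, h5, h6⟩
  rw [hset]
  have m1 := hN1 Y hYN1 u v hu huv hv1
  rw [pr_eq (by omega) hv1] at m1 ⊢
  have hmono : (Y : ℝ) ^ u ≤ (Y : ℝ) ^ v := Real.rpow_le_rpow_of_exponent_le hY1r.le huv
  have hu' : (Y : ℝ) ^ ε₁ ≤ (Y : ℝ) ^ u := Real.rpow_le_rpow_of_exponent_le hY1r.le hu
  have hYv : (Y : ℝ) ^ v ≤ Y := by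
    calc (Y : ℝ) ^ v ≤ (Y : ℝ) ^ (1 : ℝ) := Real.rpow_le_rpow_of_exponent_le hY1r.le hv1
      _ = Y := Real.rpow_one _
  have hAB : ⌈(Y : ℝ) ^ u⌉₊ - 1 ≤ ⌈(Y : ℝ) ^ v⌉₊ - 1 := Nat.sub_le_sub_right (Nat.ceil_mono hmono) 1
  have hBY : ⌈(Y : ℝ) ^ v⌉₊ - 1 ≤ Y := by
    have : ⌈(Y : ℝ) ^ v⌉₊ ≤ Y := Nat.ceil_le.2 hYv
    omega
  have hAl : (Y : ℝ) ^ ε₁ - 1 ≤ ((⌈(Y : ℝ) ^ u⌉₊ - 1 : ℕ) : ℝ) := by
    have h1 := Nat.le_ceil ((Y : ℝ) ^ u)
    have h2 : 1 ≤ ⌈(Y : ℝ) ^ u⌉₊ := Nat.ceil_pos.2 (by positivity)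
    rw [Nat.cast_sub h2]
    push_cast
    linarith
  set A := ⌈(Y : ℝ) ^ u⌉₊ - 1 with hA
  set B := ⌈(Y : ℝ) ^ v⌉₊ - 1 with hB
  have hAmax : max (P0 : ℝ) (3 / η) + 2 ≤ A := by linarith
  have hAP : P0 ≤ A := by
    have : (P0 : ℝ) ≤ A := by linarith [le_max_left (P0 : ℝ) (3 / η)]
    exact_mod_cast this
  have hAη : 3 / η ≤ A := by linarith [le_max_right (P0 : ℝ) (3 / η)]
  have hA2 : 2 ≤ A := hP02.trans hAP
  have hA2r : (2 : ℝ) ≤ A := by exact_mod_cast hA2
  have m2 := shift_prime (A := A) (B := B) (by omega) hAB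
  rw [Finset.sum_sub_distrib] at m2
  have hne2 : ∀ p ∈ (Ioc A B).filter Nat.Prime, p ≠ 2 := by
    intro p hp
    rw [mem_filter, mem_Ioc] at hp
    omega
  have hsum : ∑ p ∈ (Ioc A B).filter Nat.Prime, (ro (QF a) 0 p : ℝ) / p =
      ∑ p ∈ (Ioc A B).filter Nat.Prime, 1 / (p : ℝ) + Sd (-a) A B := by
    have h1 : (Ioc A B).filter (fun p : ℕ => p.Prime ∧ p ≠ 2) = (Ioc A B).filter Nat.Prime := by
      apply filter_congr
      intro p hp
      rw [mem_Ioc] at hp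
      constructor
      · exact fun h => h.1
      · exact fun h => ⟨h, by omega⟩
    unfold Sd
    rw [h1, ← sum_add_distrib]
    apply sum_congr rfl
    intro p hp
    have h2 := ro_quad a p (mem_filter.1 hp).2 (hne2 p hp)
    have h3 : (ro (QF a) 0 p : ℝ) = 1 + (jacobiSym (-a) p : ℝ) := by exact_mod_cast h2
    rw [h3]
    ring
  rw [hsum]
  -- dyadic
  have hk : B ≤ 2 ^ (Nat.clog 2 Y) * A := by
    calc B ≤ Y := hBY
      _ ≤ 2 ^ (Nat.clog 2 Y) := Nat.le_pow_clog (by norm_num) Y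
      _ ≤ 2 ^ (Nat.clog 2 Y) * A := Nat.le_mul_of_pos_right _ (by omega)
  have m3 := hP0 (Nat.clog 2 Y) A B hAP hAB hk
  have hclog : (Nat.clog 2 Y : ℝ) ≤ 3 * Real.log Y := by
    have h1 : 2 ^ (Nat.clog 2 Y - 1) < Y :=
      Nat.pow_pred_clog_lt_self (by norm_num) (by omega)
    have h2 : ((Nat.clog 2 Y - 1 : ℕ) : ℝ) * Real.log 2 ≤ Real.log Y := by
      rw [← Real.log_pow]
      apply Real.log_le_log (by positivity)
      exact_mod_cast h1.le
    have h3 : (Nat.clog 2 Y : ℝ) ≤ ((Nat.clog 2 Y - 1 : ℕ) : ℝ) + 1 := by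
      have : Nat.clog 2 Y ≤ (Nat.clog 2 Y - 1) + 1 := by omega
      exact_mod_cast this
    have h4 : 0.69 < Real.log 2 := by linarith [Real.log_two_gt_d9]
    have h5 : ((Nat.clog 2 Y - 1 : ℕ) : ℝ) * 0.69 ≤ ((Nat.clog 2 Y - 1 : ℕ) : ℝ) * Real.log 2 :=
      mul_le_mul_of_nonneg_left h4.le (Nat.cast_nonneg _)
    have h6 : 3 ≤ Real.log Y := by
      have : 0 < 36 / (ε₁ ^ 2 * η) := by positivity
      linarith
    linarith
  have hlogA : ε₁ / 2 * Real.log Y ≤ Real.log A := by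
    rw [← Real.log_rpow hY0]
    apply Real.log_le_log (by positivity)
    have h1 : (Y : ℝ) ^ ε₁ = (Y : ℝ) ^ (ε₁ / 2) * (Y : ℝ) ^ (ε₁ / 2) := by
      rw [← Real.rpow_add hY0]
      congr 1
      ring
    nlinarith
  have hlY : 0 < Real.log Y := Real.log_pos hY1r
  have hlA : 0 < Real.log A := lt_of_lt_of_le (by positivity) hlogA
  have m4 : |Sd (-a) A B| ≤ η / 3 := by
    refine m3.trans ?_
    rw [div_le_iff₀ (by positivity)]
    have h1 : (ε₁ / 2 * Real.log Y) ^ 2 ≤ Real.log A ^ 2 :=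
      pow_le_pow_left₀ (by positivity) hlogA 2
    have h2 : 36 / (ε₁ ^ 2 * η) ≤ Real.log Y := by linarith
    rw [div_le_iff₀ (by positivity)] at h2
    calc (Nat.clog 2 Y : ℝ) ≤ 3 * Real.log Y := hclog
      _ = 36 * Real.log Y / 12 := by ring
      _ ≤ (Real.log Y * (ε₁ ^ 2 * η)) * Real.log Y / 12 := by gcongr
      _ = η / 3 * (ε₁ / 2 * Real.log Y) ^ 2 := by ring
      _ ≤ _ := by gcongr
  have m5 : 1 / (A : ℝ) ≤ η / 3 := by
    rw [div_le_iff₀ (by linarith)]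
    rw [div_le_iff₀ hη] at hAη
    linarith
  obtain ⟨a1, a2⟩ := abs_le.1 m1
  obtain ⟨a3, a4⟩ := abs_le.1 m4
  rw [abs_le]
  constructor <;> linarith [m2.1, m2.2]

theorem QF_irred (a : ℤ) (ha : ¬ IsSquare (-a)) : Irreducible (QF a) := by
  have hm : (QF a).Monic := by
    unfold QF
    exact monic_X_pow_add_C a (by norm_num)
  have hd : (QF a).natDegree = 2 := by
    unfold QF
    exact natDegree_X_pow_add_C
  rw [Monic.irreducible_iff_roots_eq_zero_of_degree_le_three hm (by omega) (by omega)]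
  rw [Multiset.eq_zero_iff_forall_notMem]
  intro x hx
  rw [mem_roots hm.ne_zero, IsRoot.def, QF_eval] at hx
  apply ha
  exact ⟨x, by linarith⟩

/-- the local factor has the exact order -/
theorem lo_quad (a : ℤ) (ha : ¬ IsSquare (-a)) : ∃ c : ℝ, 0 < c ∧ ∀ Z : ℕ, 3 ≤ Z →
    c / Real.log Z ≤ lo (QF a) Z := by
  obtain ⟨C, hC0, hC⟩ := Pool.Agent.H474R2.GE.mertens_rho (QF a) (QF_irred a ha) (by
    have hd : (QF a).natDegree = 2 := by
      unfold QF
      exact natDegree_X_pow_add_C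
    omega)
  refine ⟨Real.exp (-(C + 24)), Real.exp_pos _, fun Z hZ => ?_⟩
  have hZr : (3 : ℝ) ≤ Z := by exact_mod_cast hZ
  have h1 := (abs_le.1 (hC Z hZr)).2
  have hrho : ∀ p : ℕ, Pool.Agent.H474R2.PG.rho (QF a) p = ro (QF a) 0 p := by
    intro p
    rw [ro_eq]
    unfold Pool.Agent.H474R2.PG.rho
    simp
  have hlZ : 1 < Real.log Z := by
    rw [Real.lt_log_iff_exp_lt (by linarith)]
    linarith [Real.exp_one_lt_d9]
  have hPR : Pool.Agent.H474R2.PG.PR (Z : ℝ) = (Icc 1 Z).filter Nat.Prime := by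
    unfold Pool.Agent.H474R2.PG.PR
    rw [Nat.floor_natCast]
  have h2 : ∀ p ∈ (Icc 1 Z).filter Nat.Prime,
      Real.exp (-((ro (QF a) 0 p : ℝ) / p) - 12 * (1 / (p : ℝ) ^ 2)) ≤ 1 - (ro (QF a) 0 p : ℝ) / p := by
    intro p hp
    have hpp := (mem_filter.1 hp).2
    have hp0 : (0 : ℝ) < p := by exact_mod_cast hpp.pos
    have hr2 : (ro (QF a) 0 p : ℝ) ≤ 2 := by exact_mod_cast ro_quad_le a p hpp
    have hx0 : 0 ≤ (ro (QF a) 0 p : ℝ) / p := by positivity
    have hx : (ro (QF a) 0 p : ℝ) / p ≤ 2 / 3 := by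
      rw [div_le_iff₀ hp0]
      by_cases h2 : p = 2
      · subst h2
        rw [ro_quad_two]
        norm_num
      · have : 3 ≤ p := by
          have := hpp.two_le
          omega
        have : (3 : ℝ) ≤ p := by exact_mod_cast this
        linarith
    set x := (ro (QF a) 0 p : ℝ) / p with hxdef
    have hx2 : x ^ 2 ≤ 4 * (1 / (p : ℝ) ^ 2) := by
      rw [hxdef, div_pow]
      rw [mul_one_div]
      apply div_le_div_of_nonneg_right _ (by positivity)
      nlinarith [(Nat.cast_nonneg (ro (QF a) 0 p) : (0 : ℝ) ≤ _)]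
    have h1x : 0 < 1 - x := by linarith
    rw [← Real.le_log_iff_exp_le h1x]
    have h3 := Real.one_sub_inv_le_log_of_pos h1x
    refine le_trans ?_ h3
    have h4 : 1 - (1 - x)⁻¹ = - (x / (1 - x)) := by
      field_simp
      ring
    rw [h4]
    have h5 : x / (1 - x) ≤ x + 3 * x ^ 2 := by
      rw [div_le_iff₀ h1x]
      nlinarith [mul_nonneg (mul_nonneg hx0 hx0) (show 0 ≤ 2 - 3 * x by linarith)]
    linarith
  unfold lo
  calc Real.exp (-(C + 24)) / Real.log Z = Real.exp (-(Real.log (Real.log Z)) - C - 24) := by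
        rw [show -(Real.log (Real.log Z)) - C - 24 = -(C + 24) - Real.log (Real.log Z) by ring,
          Real.exp_sub, Real.exp_log (by linarith)]
    _ ≤ Real.exp (∑ p ∈ (Icc 1 Z).filter Nat.Prime,
        (-((ro (QF a) 0 p : ℝ) / p) - 12 * (1 / (p : ℝ) ^ 2))) := by
        apply Real.exp_le_exp.2
        rw [sum_sub_distrib, sum_neg_distrib, ← mul_sum]
        have h3 : ∑ p ∈ (Icc 1 Z).filter Nat.Prime, (1 / (p : ℝ) ^ 2) ≤ 2 := by
          calc ∑ p ∈ (Icc 1 Z).filter Nat.Prime, (1 / (p : ℝ) ^ 2) ≤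
              ∑ p ∈ Icc 1 Z, (1 / (p : ℝ) ^ 2) :=
                sum_le_sum_of_subset_of_nonneg (filter_subset _ _) (fun _ _ _ => by positivity)
            _ ≤ 2 := by
                have h4 : ∀ n : ℕ, 1 ≤ n → ∑ p ∈ Icc 1 n, (1 / (p : ℝ) ^ 2) ≤ 2 - 1 / (n : ℝ) := by
                  intro n hn
                  induction n, hn using Nat.le_induction with
                  | base => norm_num
                  | succ n hn ih =>
                    rw [sum_Icc_succ_top (by omega)]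
                    have hn0 : (0 : ℝ) < n := by exact_mod_cast hn
                    have h5 : 1 / (((n + 1 : ℕ) : ℝ)) ^ 2 ≤ 1 / (n : ℝ) - 1 / ((n + 1 : ℕ) : ℝ) := by
                      push_cast
                      rw [div_sub_div _ _ hn0.ne' (by positivity),
                        div_le_div_iff₀ (by positivity) (by positivity)]
                      nlinarith
                    linarith
                have h5 := h4 Z (by omega)
                have : (0 : ℝ) < 1 / Z := by positivity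
                linarith
        have h4 : ∑ p ∈ (Icc 1 Z).filter Nat.Prime, (ro (QF a) 0 p : ℝ) / p ≤
            Real.log (Real.log Z) + C := by
          unfold Pool.Agent.H474R2.PG.Sg at h1
          rw [hPR] at h1
          simp_rw [hrho] at h1
          linarith
        linarith
    _ = ∏ p ∈ (Icc 1 Z).filter Nat.Prime,
        Real.exp (-((ro (QF a) 0 p : ℝ) / p) - 12 * (1 / (p : ℝ) ^ 2)) := Real.exp_sum _ _
    _ ≤ _ := prod_le_prod (fun _ _ => (Real.exp_pos _).le) h2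

end Pool.Agent.Y882.SI
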