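import Pool.Agent.Y882.SI.Sq
import Pool.Agent.Y882.KW.Num

/-! Almost prime values of `n ^ 2 + a` in short intervals: assembly. -/

set_option autoImplicit false

namespace Pool.Agent.Y882.SI

open Finset Polynomial Filter
open Pool.Agent.W23.DC
open Pool.Agent.Y882.PX
open Pool.Agent.Y882.KW

open Classical in
/-- the numbers `n` in `(N, N + H]` such that `n ^ 2 + a` has at most `r` prime factors, all at least
`z` -/
noncomputable def gset (a : ℤ) (r : ℕ) (z : ℝ) (N H : ℕ) : Finset ℕ :=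
  (Ioc N (N + H)).filter (fun n : ℕ => (((n : ℤ) ^ 2 + a).natAbs.primeFactorsList.length ≤ r ∧
    ∀ p : ℕ, p.Prime → (p : ℤ) ∣ (n : ℤ) ^ 2 + a → z ≤ p))

open Classical in
theorem fin (a : ℤ) (ha : ¬ IsSquare (-a)) (r : ℕ) (τ ζ υ lam S : ℝ) (hζ : 0 < ζ) (h2 : 2 * ζ < τ)
    (h4 : τ ≤ 4 * ζ) (hτ : τ < 1) (hτ2 : 1 / 2 ≤ τ) (hζυ : ζ ≤ υ) (hυτ : υ < τ) (hυζ : υ ≤ 1 - ζ)
    (hlam : 0 < lam)
    (hJ0 : ∫ x in ζ..υ, (lam - lam / υ * x) / (τ - x) / x < Real.log (τ / ζ - 1) / τ) (hS : 2 < S)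
    (hr : 1 / lam + S / υ ≤ r + 1) (h ε : ℝ) (hh : 0 < h) (hh1 : h ≤ 1) (hε : 0 < ε) :
    ∃ δ : ℝ, 0 < δ ∧ ∃ X0 : ℕ, ∀ X : ℕ, X0 ≤ X →
      (((Icc 1 X).filter (fun N => ((gset a r ((X : ℝ) ^ ζ) N ⌊(X : ℝ) ^ h⌋₊).card : ℝ) <
        δ * (X : ℝ) ^ h / Real.log X)).card : ℝ) ≤
      (X : ℝ) ^ (2 * τ - h + ε) + (X : ℝ) ^ (1 - ζ + ε) := by
  have ha0 : a ≠ 0 := by
    rintro rfl
    exact ha ⟨0, by simp⟩
  have hυ0 : 0 < υ := by linarith
  have hυ1 : υ ≤ 1 := by linarith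
  obtain ⟨δ, ε₁, η, hδ, hε₁, hε₁ζ, hε₁β, hη, Y1, HE⟩ := engI 2 1 τ ζ υ lam (lam / υ) (ε / 2)
    one_pos hζ h2 h4 hτ hζυ hυτ hlam.le (by positivity) (by rw [div_mul_cancel₀ _ hυ0.ne']) hJ0
    (by linarith)
  obtain ⟨Y2, HM⟩ := mer_quad a ha ε₁ υ η hε₁ hυ1 hη
  obtain ⟨c, hc, HL⟩ := lo_quad a ha
  obtain ⟨Y3, HB⟩ := bad_count a ha0 ζ υ hζ hζυ hυ1
  have ev1 : ∀ᶠ Y : ℕ in atTop, 4 * (4 : ℝ) ≤ (Y : ℝ) ^ (ε / 2) :=
    ((tendsto_rpow_atTop (by linarith)).comp tendsto_natCast_atTop_atTop).eventually_ge_atTop _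
  have ev2 : ∀ᶠ Y : ℕ in atTop, (2 : ℝ) ≤ (Y : ℝ) ^ h :=
    ((tendsto_rpow_atTop hh).comp tendsto_natCast_atTop_atTop).eventually_ge_atTop _
  have ev3 : ∀ᶠ Y : ℕ in atTop, 4 / (δ * c) * Real.log Y ≤ (Y : ℝ) ^ (ε / 2) := by
    have h1 := (isLittleO_log_rpow_atTop (show 0 < ε / 2 by linarith)).bound
      (show (0 : ℝ) < δ * c / 4 by positivity)
    filter_upwards [tendsto_natCast_atTop_atTop.eventually h1, eventually_ge_atTop 1] with Y hY hY1
    have hY1r : (1 : ℝ) ≤ Y := by exact_mod_cast hY1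
    rw [Real.norm_of_nonneg (Real.log_nonneg hY1r), Real.norm_of_nonneg (by positivity)] at hY
    rw [div_mul_eq_mul_div, div_le_iff₀ (by positivity)]
    linarith
  have ev4 : ∀ᶠ Y : ℕ in atTop, 5 + |(a : ℝ)| ≤ (Y : ℝ) ^ (S - 2) :=
    ((tendsto_rpow_atTop (by linarith)).comp tendsto_natCast_atTop_atTop).eventually_ge_atTop _
  obtain ⟨Y4, hY4⟩ := eventually_atTop.1
    (ev1.and (ev2.and (ev3.and (ev4.and (eventually_ge_atTop 3)))))
  refine ⟨δ * c / 8, by positivity, max (max Y1 Y2) (max Y3 Y4), ?_⟩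
  intro X hX
  obtain ⟨e1, e2, e3, e4, e5⟩ := hY4 X (((le_max_right _ _).trans (le_max_right _ _)).trans hX)
  have hX1 : Y1 ≤ X := ((le_max_left _ _).trans (le_max_left _ _)).trans hX
  have hX2 : Y2 ≤ X := ((le_max_right _ _).trans (le_max_left _ _)).trans hX
  have hX3 : Y3 ≤ X := ((le_max_left _ _).trans (le_max_right _ _)).trans hX
  have hXr : (3 : ℝ) ≤ X := by exact_mod_cast e5
  have hX0 : (0 : ℝ) < X := by linarith
  have hX1r : (1 : ℝ) ≤ X := by linarith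
  have hlX : 0 < Real.log X := Real.log_pos (by linarith)
  set H : ℕ := ⌊(X : ℝ) ^ h⌋₊ with hH
  have hHle : (H : ℝ) ≤ (X : ℝ) ^ h := Nat.floor_le (by positivity)
  have hHge : (X : ℝ) ^ h / 2 ≤ H := by
    have := Nat.lt_floor_add_one ((X : ℝ) ^ h)
    rw [← hH] at this
    linarith
  have hH1 : 1 ≤ H := by
    rw [hH]
    exact Nat.le_floor (by push_cast; linarith)
  have hHr : (0 : ℝ) < H := by exact_mod_cast hH1
  have hHX : (H : ℝ) ≤ X := by
    refine hHle.trans ?_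
    calc (X : ℝ) ^ h ≤ (X : ℝ) ^ (1 : ℝ) := Real.rpow_le_rpow_of_exponent_le hX1r hh1
      _ = X := Real.rpow_one _
  have hHXn : H ≤ X := by exact_mod_cast hHX
  have hA := HE X hX1 (QF a) X H X (fun p hp => ro_quad_le a p hp) (by omega)
    (by rw [Real.rpow_one]) (HM X hX2)
  have hL := HL X e5
  set t : ℝ := (X : ℝ) ^ (ε / 2) with ht
  have ht0 : 0 < t := by positivity
  have hB := bad_pos (Bad a X ζ υ) X H t ht0
  have hBc := HB X hX3 (X + H)
  set A1 := (Icc 1 X).filter (fun N => ((pos (QF a) X ζ υ lam (lam / υ) H N).card : ℝ) <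
          δ * H * lo (QF a) X) with hA1
  set A2 := (Icc 1 X).filter (fun N => (H : ℝ) / t <
      (((Icc 1 H).filter (fun j => Bad a X ζ υ (N + j))).card : ℝ)) with hA2
  have hsub : (Icc 1 X).filter (fun N => ((gset a r ((X : ℝ) ^ ζ) N H).card : ℝ) <
        δ * c / 8 * (X : ℝ) ^ h / Real.log X) ⊆ A1 ∪ A2 := by
    intro N hN
    rw [mem_filter] at hN
    rw [mem_union]
    by_contra hcon
    push Not at hcon
    obtain ⟨hc1, hc2⟩ := hcon
    have g1 : δ * H * lo (QF a) X ≤ ((pos (QF a) X ζ υ lam (lam / υ) H N).card : ℝ) := by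
      by_contra h'
      exact hc1 (by rw [hA1, mem_filter]; exact ⟨hN.1, not_le.1 h'⟩)
    have g2 : (((Icc 1 H).filter (fun j => Bad a X ζ υ (N + j))).card : ℝ) ≤ (H : ℝ) / t := by
      by_contra h'
      exact hc2 (by rw [hA2, mem_filter]; exact ⟨hN.1, not_le.1 h'⟩)
    have hNX : N ≤ X := (mem_Icc.1 hN.1).2
    have g3 : (pos (QF a) X ζ υ lam (lam / υ) H N).card ≤
        (gset a r ((X : ℝ) ^ ζ) N H).card + ((Icc 1 H).filter (fun j => Bad a X ζ υ (N + j))).card := by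
      have g4 : pos (QF a) X ζ υ lam (lam / υ) H N ⊆
          (pos (QF a) X ζ υ lam (lam / υ) H N).filter (fun j => ¬ Bad a X ζ υ (N + j)) ∪
          (Icc 1 H).filter (fun j => Bad a X ζ υ (N + j)) := by
        intro j hj
        rw [mem_union, mem_filter, mem_filter]
        by_cases hb : Bad a X ζ υ (N + j)
        · right
          unfold pos at hj
          exact ⟨(mem_filter.1 hj).1, hb⟩
        · exact Or.inl ⟨hj, hb⟩
      refine ((card_le_card g4).trans (card_union_le _ _)).trans ?_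
      apply Nat.add_le_add_right
      apply card_le_card_of_injOn (fun j => N + j)
      · intro j hj
        show N + j ∈ _
        rw [mem_coe, mem_filter] at hj
        obtain ⟨hj1, hj2⟩ := hj
        unfold pos at hj1
        rw [mem_filter, mem_Icc] at hj1
        obtain ⟨⟨hj3, hj4⟩, hj5⟩ := hj1
        rw [QF_eval] at hj5
        unfold gset
        rw [mem_coe, mem_filter, mem_Ioc]
        refine ⟨⟨by omega, by omega⟩, ?_⟩
        have hne : (((N + j : ℕ) : ℤ) ^ 2 + a) ≠ 0 := by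
          intro h0
          apply ha
          exact ⟨((N + j : ℕ) : ℤ), by linarith⟩
        have hsize : ((((N + j : ℕ) : ℤ) ^ 2 + a).natAbs : ℝ) ≤ (X : ℝ) ^ S := by
          have u1 : ((((N + j : ℕ) : ℤ) ^ 2 + a).natAbs : ℝ) = |(((N + j : ℕ) : ℝ)) ^ 2 + a| := by
            rw [Nat.cast_natAbs]
            push_cast
            rfl
          rw [u1]
          have u2 : (((N + j : ℕ) : ℝ)) ≤ 2 * X := by
            have : N + j ≤ 2 * X := by omega
            exact_mod_cast this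
          have u3 : (((N + j : ℕ) : ℝ)) ^ 2 ≤ (2 * X) ^ 2 := pow_le_pow_left₀ (Nat.cast_nonneg _) u2 2
          have u4 : (1 : ℝ) ≤ (X : ℝ) ^ 2 := by nlinarith
          have u5 := abs_nonneg (a : ℝ)
          calc |(((N + j : ℕ) : ℝ)) ^ 2 + a| ≤ |(((N + j : ℕ) : ℝ)) ^ 2| + |(a : ℝ)| := abs_add_le _ _
            _ = (((N + j : ℕ) : ℝ)) ^ 2 + |(a : ℝ)| := by rw [abs_of_nonneg (by positivity)]
            _ ≤ (5 + |(a : ℝ)|) * (X : ℝ) ^ 2 := by nlinarith
            _ ≤ (X : ℝ) ^ (S - 2) * (X : ℝ) ^ 2 := mul_le_mul_of_nonneg_right e4 (by positivity)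
            _ = (X : ℝ) ^ S := by
                rw [← Real.rpow_natCast (X : ℝ) 2, ← Real.rpow_add hX0]
                congr 1
                push_cast
                ring
        have hres := almost X (by omega) ζ υ lam S r hζυ hυ0 hυ1 hlam hr
          (((N + j : ℕ) : ℤ) ^ 2 + a).natAbs (Int.natAbs_ne_zero.2 hne) hsize hj5 (by
            intro q hq hqd
            exact hj2 ⟨q, hq, Int.natCast_dvd.2 hqd⟩)
        exact ⟨hres.1, fun p hp hpd => hres.2 p hp (Int.natCast_dvd.1 hpd)⟩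
      · intro x _ y _ hxy
        simpa using hxy
    have g3r : ((pos (QF a) X ζ υ lam (lam / υ) H N).card : ℝ) ≤
        ((gset a r ((X : ℝ) ^ ζ) N H).card : ℝ) +
          (((Icc 1 H).filter (fun j => Bad a X ζ υ (N + j))).card : ℝ) := by exact_mod_cast g3
    have g5 : δ * H * (c / Real.log X) ≤ δ * H * lo (QF a) X :=
      mul_le_mul_of_nonneg_left hL (by positivity)
    have g6 : (H : ℝ) / t ≤ δ * H * (c / Real.log X) / 4 := by
      rw [div_mul_eq_mul_div, div_le_iff₀ (by positivity)] at e3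
      rw [div_le_iff₀ ht0]
      have u6 : δ * H * (c / Real.log X) / 4 * t = H * (δ * c * t / (4 * Real.log X)) := by
        field_simp
      rw [u6]
      calc (H : ℝ) = H * 1 := (mul_one _).symm
        _ ≤ _ := by
            apply mul_le_mul_of_nonneg_left _ hHr.le
            rw [le_div_iff₀ (by positivity)]
            linarith
    have g7 : δ * c / 8 * (X : ℝ) ^ h / Real.log X ≤ δ * H * (c / Real.log X) * (1 / 4) := by
      calc δ * c / 8 * (X : ℝ) ^ h / Real.log X = δ * ((X : ℝ) ^ h / 2) * (c / Real.log X) * (1 / 4) := by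
            field_simp
            norm_num
        _ ≤ _ := by gcongr
    have g8 : 0 ≤ δ * H * (c / Real.log X) := by positivity
    linarith [hN.2]
  have hXh0 : (0 : ℝ) < (X : ℝ) ^ h := by positivity
  have r1 : (A1.card : ℝ) ≤ (X : ℝ) ^ (2 * τ - h + ε) := by
    refine hA.trans ?_
    have u1 : (X : ℝ) ≤ (X : ℝ) ^ (2 * τ) := by
      calc (X : ℝ) = (X : ℝ) ^ (1 : ℝ) := (Real.rpow_one _).symm
        _ ≤ _ := Real.rpow_le_rpow_of_exponent_le hX1r (by linarith)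
    calc (X + (X : ℝ) ^ (2 * τ)) / H * (X : ℝ) ^ (ε / 2) ≤
        (2 * (X : ℝ) ^ (2 * τ)) / ((X : ℝ) ^ h / 2) * (X : ℝ) ^ (ε / 2) := by
          apply mul_le_mul_of_nonneg_right _ (by positivity)
          apply div_le_div₀ (by positivity) (by linarith) (by positivity) hHge
      _ = 4 * ((X : ℝ) ^ (2 * τ) / (X : ℝ) ^ h) * (X : ℝ) ^ (ε / 2) := by
          field_simp
          norm_num
      _ ≤ (X : ℝ) ^ (ε / 2) * ((X : ℝ) ^ (2 * τ) / (X : ℝ) ^ h) * (X : ℝ) ^ (ε / 2) := by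
          gcongr
          linarith
      _ = _ := by
          rw [← Real.rpow_sub hX0, ← Real.rpow_add hX0, ← Real.rpow_add hX0]
          congr 1
          ring
  have r2 : (A2.card : ℝ) ≤ (X : ℝ) ^ (1 - ζ + ε) := by
    refine hB.trans ?_
    have u2 : (X : ℝ) ^ υ ≤ (X : ℝ) ^ (1 - ζ) := Real.rpow_le_rpow_of_exponent_le hX1r hυζ
    have u3 : (((X + H : ℕ) : ℝ)) / (X : ℝ) ^ ζ ≤ 2 * (X : ℝ) ^ (1 - ζ) := by
      rw [Real.rpow_sub hX0, Real.rpow_one, mul_div_assoc']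
      apply div_le_div_of_nonneg_right _ (by positivity)
      push_cast
      linarith
    calc t * (((Icc 1 (X + H)).filter (Bad a X ζ υ)).card : ℝ) ≤
        t * (4 * ((((X + H : ℕ) : ℝ)) / (X : ℝ) ^ ζ) + 2 * (X : ℝ) ^ υ) :=
          mul_le_mul_of_nonneg_left hBc ht0.le
      _ ≤ t * (4 * (2 * (X : ℝ) ^ (1 - ζ)) + 2 * (X : ℝ) ^ (1 - ζ)) := by gcongr
      _ = t * (10 * (X : ℝ) ^ (1 - ζ)) := by ring
      _ ≤ t * (t * (X : ℝ) ^ (1 - ζ)) := by
          apply mul_le_mul_of_nonneg_left _ ht0.le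
          apply mul_le_mul_of_nonneg_right _ (by positivity)
          linarith
      _ = _ := by
          rw [ht, ← Real.rpow_add hX0, ← Real.rpow_add hX0]
          congr 1
          ring
  calc (((Icc 1 X).filter (fun N => ((gset a r ((X : ℝ) ^ ζ) N H).card : ℝ) <
        δ * c / 8 * (X : ℝ) ^ h / Real.log X)).card : ℝ) ≤ ((A1 ∪ A2).card : ℝ) := by
        exact_mod_cast card_le_card hsub
    _ ≤ A1.card + A2.card := by exact_mod_cast card_union_le _ _
    _ ≤ _ := add_le_add r1 r2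

end Pool.Agent.Y882.SI
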