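import Pool.Agent.Y882.SI.Quad
import Pool.Agent.Y882.KW.Alm

/-! Few values of `n ^ 2 + a` with a large square factor. -/

set_option autoImplicit false

namespace Pool.Agent.Y882.SI

open Finset Polynomial Filter
open Pool.Agent.W23.DC
open Pool.Agent.Y882.PX
open Pool.Agent.Y882.KW
open Pool.Agent.W378.DC.TMP

theorem class_count (m : ℕ) (hm : 0 < m) (M : ℕ) (b : ℤ) :
    ((((Icc 1 M).filter (fun n : ℕ => (m : ℤ) ∣ (n : ℤ) - b)).card : ℕ) : ℝ) ≤ M / m + 1 := by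
  have h1 : (Icc 1 M).filter (fun n : ℕ => (m : ℤ) ∣ (n : ℤ) - b) =
      (Icc 1 M).filter (fun n : ℕ => n ≡ (b % m).toNat [MOD m]) := by
    apply filter_congr
    intro n _
    have hb : 0 ≤ b % m := Int.emod_nonneg _ (by omega)
    have h2 : ((b % m).toNat : ℤ) = b % m := Int.toNat_of_nonneg hb
    have h3 : (m : ℤ) ∣ b - b % m := Int.dvd_self_sub_emod
    rw [← Int.natCast_modEq_iff, h2, Int.modEq_comm, Int.modEq_iff_dvd]
    constructor
    · intro h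
      have e : (n : ℤ) - b % m = ((n : ℤ) - b) + (b - b % m) := by ring
      rw [e]
      exact dvd_add h h3
    · intro h
      have e : (n : ℤ) - b = ((n : ℤ) - b % m) - (b - b % m) := by ring
      rw [e]
      exact dvd_sub h h3
  rw [h1]
  have h2 : (Icc 1 M).filter (fun n : ℕ => n ≡ (b % m).toNat [MOD m]) =
      (Ioc 0 M).filter (fun n : ℕ => n ≡ (b % m).toNat [MOD m]) := by
    congr 1
  rw [h2]
  have h3 := Nat.Ioc_filter_modEq_card 0 M hm (b % m).toNat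
  have h4 : (((Ioc 0 M).filter (fun n : ℕ => n ≡ (b % m).toNat [MOD m])).card : ℤ) ≤
      ⌊(M : ℝ) / m⌋ + 1 := by
    rw [h3]
    apply max_le
    · have hm0 : (0 : ℝ) < m := by exact_mod_cast hm
      have u1 : ⌊((M : ℚ) - ((b % m).toNat : ℕ)) / (m : ℚ)⌋ ≤ ⌊(M : ℝ) / m⌋ := by
        rw [Int.le_floor]
        have u2 : ((⌊((M : ℚ) - ((b % m).toNat : ℕ)) / (m : ℚ)⌋ : ℤ) : ℚ) ≤
            ((M : ℚ) - ((b % m).toNat : ℕ)) / (m : ℚ) := Int.floor_le _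
        have u3 : ((⌊((M : ℚ) - ((b % m).toNat : ℕ)) / (m : ℚ)⌋ : ℤ) : ℝ) ≤
            ((M : ℝ) - ((b % m).toNat : ℕ)) / (m : ℝ) := by exact_mod_cast u2
        refine u3.trans ?_
        apply div_le_div_of_nonneg_right _ hm0.le
        have : (0 : ℝ) ≤ ((b % m).toNat : ℕ) := Nat.cast_nonneg _
        linarith
      have u4 : (-1 : ℤ) ≤ ⌊((0 : ℕ) - ((b % m).toNat : ℕ) : ℚ) / (m : ℚ)⌋ := by
        rw [Int.le_floor]
        have hm0 : (0 : ℚ) < m := by exact_mod_cast hm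
        rw [le_div_iff₀ hm0]
        have u5 : (b % m).toNat < m := by
          have := Int.emod_lt_of_pos b (show (0 : ℤ) < m by exact_mod_cast hm)
          have := Int.emod_nonneg b (show (m : ℤ) ≠ 0 by omega)
          omega
        have u6 : (((b % m).toNat : ℕ) : ℚ) ≤ m := by exact_mod_cast u5.le
        push_cast
        linarith
      push_cast at u1 u4 ⊢
      linarith
    · have : (0 : ℤ) ≤ ⌊(M : ℝ) / m⌋ := Int.floor_nonneg.2 (by positivity)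
      linarith
  have h5 : ((⌊(M : ℝ) / m⌋ : ℤ) : ℝ) ≤ M / m := Int.floor_le _
  have h6 : ((((Ioc 0 M).filter (fun n : ℕ => n ≡ (b % m).toNat [MOD m])).card : ℕ) : ℝ) ≤
      ((⌊(M : ℝ) / m⌋ + 1 : ℤ) : ℝ) := by
    exact_mod_cast h4
  push_cast at h6
  linarith

theorem sq_count (a : ℤ) (ha : a ≠ 0) (q : ℕ) (hq : q.Prime) (hqa : a.natAbs < q) (h2 : 2 < q)
    (M : ℕ) : ((((Icc 1 M).filter (fun n : ℕ => ((q ^ 2 : ℕ) : ℤ) ∣ (n : ℤ) ^ 2 + a)).card : ℕ) : ℝ) ≤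
      2 * (M / (q : ℝ) ^ 2 + 1) := by
  classical
  rcases ((Icc 1 M).filter (fun n : ℕ => ((q ^ 2 : ℕ) : ℤ) ∣ (n : ℤ) ^ 2 + a)).eq_empty_or_nonempty
    with h | ⟨n0, hn0⟩
  · rw [h]
    simp only [card_empty, Nat.cast_zero]
    positivity
  rw [mem_filter] at hn0
  have hsub : (Icc 1 M).filter (fun n : ℕ => ((q ^ 2 : ℕ) : ℤ) ∣ (n : ℤ) ^ 2 + a) ⊆
      (Icc 1 M).filter (fun n : ℕ => ((q ^ 2 : ℕ) : ℤ) ∣ (n : ℤ) - n0) ∪
      (Icc 1 M).filter (fun n : ℕ => ((q ^ 2 : ℕ) : ℤ) ∣ (n : ℤ) - (-(n0 : ℤ))) := by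
    intro n hn
    rw [mem_filter] at hn
    rw [mem_union, mem_filter, mem_filter]
    have hqZ : Prime (q : ℤ) := Nat.prime_iff_prime_int.1 hq
    have h3 : ((q ^ 2 : ℕ) : ℤ) ∣ ((n : ℤ) - n0) * ((n : ℤ) + n0) := by
      have := dvd_sub hn.2 hn0.2
      have e : (n : ℤ) ^ 2 + a - ((n0 : ℤ) ^ 2 + a) = ((n : ℤ) - n0) * ((n : ℤ) + n0) := by ring
      rwa [e] at this
    by_cases h4 : (q : ℤ) ∣ (n : ℤ) - n0
    · have h5 : ¬ (q : ℤ) ∣ (n : ℤ) + n0 := by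
        intro h6
        have h7 : (q : ℤ) ∣ 2 * (n : ℤ) := by
          have := dvd_add h4 h6
          have e : (n : ℤ) - n0 + ((n : ℤ) + n0) = 2 * n := by ring
          rwa [e] at this
        have h8 : (q : ℤ) ∣ (n : ℤ) := by
          rcases hqZ.dvd_or_dvd h7 with h | h
          · have := Int.le_of_dvd (by norm_num) h
            omega
          · exact h
        have h9 : (q : ℤ) ∣ (n : ℤ) ^ 2 + a := by
          refine dvd_trans ?_ hn.2
          push_cast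
          exact dvd_pow_self _ (by norm_num)
        have h10 : (q : ℤ) ∣ a := by
          have h11 : (q : ℤ) ∣ (n : ℤ) ^ 2 := dvd_pow h8 (by norm_num)
          have := dvd_sub h9 h11
          have e : (n : ℤ) ^ 2 + a - (n : ℤ) ^ 2 = a := by ring
          rwa [e] at this
        have h12 : q ∣ a.natAbs := Int.natCast_dvd.1 h10
        have := Nat.le_of_dvd (Int.natAbs_pos.2 ha) h12
        omega
      left
      refine ⟨hn.1, ?_⟩
      have h6 : IsCoprime ((q ^ 2 : ℕ) : ℤ) ((n : ℤ) + n0) := by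
        push_cast
        apply IsCoprime.pow_left
        exact (Prime.coprime_iff_not_dvd hqZ).2 h5
      exact h6.dvd_of_dvd_mul_right h3
    · right
      refine ⟨hn.1, ?_⟩
      rw [sub_neg_eq_add]
      have h6 : IsCoprime ((q ^ 2 : ℕ) : ℤ) ((n : ℤ) - n0) := by
        push_cast
        apply IsCoprime.pow_left
        exact (Prime.coprime_iff_not_dvd hqZ).2 h4
      exact h6.dvd_of_dvd_mul_left h3
  have hm : 0 < q ^ 2 := pow_pos hq.pos 2
  have c1 := class_count (q ^ 2) hm M n0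
  have c2 := class_count (q ^ 2) hm M (-(n0 : ℤ))
  have h3 : ((((Icc 1 M).filter (fun n : ℕ => ((q ^ 2 : ℕ) : ℤ) ∣ (n : ℤ) ^ 2 + a)).card : ℕ) : ℝ) ≤
      (((Icc 1 M).filter (fun n : ℕ => ((q ^ 2 : ℕ) : ℤ) ∣ (n : ℤ) - n0)).card : ℝ) +
      (((Icc 1 M).filter (fun n : ℕ => ((q ^ 2 : ℕ) : ℤ) ∣ (n : ℤ) - (-(n0 : ℤ)))).card : ℝ) := by
    exact_mod_cast (card_le_card hsub).trans (card_union_le _ _)
  push_cast at c1 c2 h3 ⊢
  linarith

/-- values with a large square factor -/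
def Bad (a : ℤ) (Y : ℕ) (ζ υ : ℝ) (n : ℕ) : Prop :=
  ∃ q ∈ pr Y ζ υ, ((q ^ 2 : ℕ) : ℤ) ∣ (n : ℤ) ^ 2 + a

open Classical in
theorem bad_count (a : ℤ) (ha : a ≠ 0) (ζ υ : ℝ) (hζ : 0 < ζ) (hζυ : ζ ≤ υ) (hυ : υ ≤ 1) :
    ∃ Y0 : ℕ, ∀ Y : ℕ, Y0 ≤ Y → ∀ M : ℕ,
      ((((Icc 1 M).filter (Bad a Y ζ υ)).card : ℕ) : ℝ) ≤ 4 * (M / (Y : ℝ) ^ ζ) + 2 * (Y : ℝ) ^ υ := by
  have ev1 : ∀ᶠ Y : ℕ in atTop, (a.natAbs : ℝ) + 4 ≤ (Y : ℝ) ^ ζ :=
    ((tendsto_rpow_atTop hζ).comp tendsto_natCast_atTop_atTop).eventually_ge_atTop _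
  obtain ⟨Y1, hY1⟩ := eventually_atTop.1 (ev1.and (eventually_ge_atTop 3))
  refine ⟨Y1, fun Y hY M => ?_⟩
  obtain ⟨e1, e2⟩ := hY1 Y hY
  have hYr : (3 : ℝ) ≤ Y := by exact_mod_cast e2
  have hY0 : (0 : ℝ) < Y := by linarith
  have hsub : (Icc 1 M).filter (Bad a Y ζ υ) ⊆ (pr Y ζ υ).biUnion
      (fun q => (Icc 1 M).filter (fun n : ℕ => ((q ^ 2 : ℕ) : ℤ) ∣ (n : ℤ) ^ 2 + a)) := by
    intro n hn
    rw [mem_filter] at hn
    obtain ⟨hn1, q, hq, hqn⟩ := hn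
    rw [mem_biUnion]
    exact ⟨q, hq, by rw [mem_filter]; exact ⟨hn1, hqn⟩⟩
  have h1 : ((((Icc 1 M).filter (Bad a Y ζ υ)).card : ℕ) : ℝ) ≤
      ∑ q ∈ pr Y ζ υ, 2 * (M / (q : ℝ) ^ 2 + 1) := by
    calc ((((Icc 1 M).filter (Bad a Y ζ υ)).card : ℕ) : ℝ) ≤
        ((∑ q ∈ pr Y ζ υ, ((Icc 1 M).filter
          (fun n : ℕ => ((q ^ 2 : ℕ) : ℤ) ∣ (n : ℤ) ^ 2 + a)).card : ℕ) : ℝ) := by
          exact_mod_cast (card_le_card hsub).trans card_biUnion_le
      _ ≤ _ := by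
          push_cast
          apply sum_le_sum
          intro q hq
          obtain ⟨hq1, hq2, _⟩ := pr_mem Y q ζ υ (by omega) hq
          have h3 : (a.natAbs : ℝ) + 4 ≤ q := e1.trans hq2
          have h4 : a.natAbs + 4 ≤ q := by exact_mod_cast h3
          have h5 := sq_count a ha q hq1 (by omega) (by omega) M
          push_cast at h5
          exact h5
  refine h1.trans ?_
  rw [← mul_sum, sum_add_distrib, sum_const, nsmul_eq_mul, mul_one]
  have hA1 : 1 ≤ ⌈(Y : ℝ) ^ ζ⌉₊ := Nat.ceil_pos.2 (by positivity)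
  set A := ⌈(Y : ℝ) ^ ζ⌉₊ - 1 with hA
  have hAl : (Y : ℝ) ^ ζ - 1 ≤ (A : ℝ) := by
    have h2 := Nat.le_ceil ((Y : ℝ) ^ ζ)
    rw [hA, Nat.cast_sub hA1]
    push_cast
    linarith
  have ha0 : (0 : ℝ) ≤ (a.natAbs : ℝ) := Nat.cast_nonneg _
  have hA3 : (3 : ℝ) ≤ A := by linarith
  have hA0 : 1 ≤ A := by
    have : (1 : ℝ) ≤ A := by linarith
    exact_mod_cast this
  have hsum : ∑ q ∈ pr Y ζ υ, (M : ℝ) / (q : ℝ) ^ 2 ≤ M * (2 / (Y : ℝ) ^ ζ) := by
    rw [pr_eq (by omega) hυ, ← hA]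
    have h3 : ∑ q ∈ (Ioc A (⌈(Y : ℝ) ^ υ⌉₊ - 1)).filter Nat.Prime, (M : ℝ) / (q : ℝ) ^ 2 =
        M * ∑ q ∈ (Ioc A (⌈(Y : ℝ) ^ υ⌉₊ - 1)).filter Nat.Prime, 1 / (q : ℝ) ^ 2 := by
      rw [mul_sum]
      apply sum_congr rfl
      intro q _
      ring
    rw [h3]
    apply mul_le_mul_of_nonneg_left _ (Nat.cast_nonneg _)
    have h4 : ∀ B : ℕ, A ≤ B → ∑ q ∈ Ioc A B, 1 / (q : ℝ) ^ 2 ≤ 1 / (A : ℝ) - 1 / (B : ℝ) := by
      intro B hB
      induction B, hB using Nat.le_induction with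
      | base => simp
      | succ B hB ih =>
        rw [sum_Ioc_succ_top hB]
        have hB0 : (0 : ℝ) < B := by exact_mod_cast (by omega : 0 < B)
        have h5 : 1 / (((B + 1 : ℕ) : ℝ)) ^ 2 ≤ 1 / (B : ℝ) - 1 / ((B + 1 : ℕ) : ℝ) := by
          push_cast
          rw [div_sub_div _ _ hB0.ne' (by positivity),
            div_le_div_iff₀ (by positivity) (by positivity)]
          nlinarith
        linarith
    calc ∑ q ∈ (Ioc A (⌈(Y : ℝ) ^ υ⌉₊ - 1)).filter Nat.Prime, 1 / (q : ℝ) ^ 2 ≤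
        ∑ q ∈ Ioc A (⌈(Y : ℝ) ^ υ⌉₊ - 1), 1 / (q : ℝ) ^ 2 :=
          sum_le_sum_of_subset_of_nonneg (filter_subset _ _) (fun _ _ _ => by positivity)
      _ ≤ 1 / (A : ℝ) := by
          rcases le_or_gt A (⌈(Y : ℝ) ^ υ⌉₊ - 1) with h | h
          · have h7 := h4 _ h
            have : (0 : ℝ) ≤ 1 / ((⌈(Y : ℝ) ^ υ⌉₊ - 1 : ℕ) : ℝ) := by positivity
            linarith
          · rw [Ioc_eq_empty (by omega), sum_empty]
            positivity
      _ ≤ 2 / (Y : ℝ) ^ ζ := by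
          rw [div_le_div_iff₀ (by linarith) (by positivity)]
          linarith
  have hcard : ((pr Y ζ υ).card : ℝ) ≤ (Y : ℝ) ^ υ := by
    rw [pr_eq (by omega) hυ]
    calc (((Ioc (⌈(Y : ℝ) ^ ζ⌉₊ - 1) (⌈(Y : ℝ) ^ υ⌉₊ - 1)).filter Nat.Prime).card : ℝ) ≤
        ((Ioc (⌈(Y : ℝ) ^ ζ⌉₊ - 1) (⌈(Y : ℝ) ^ υ⌉₊ - 1)).card : ℝ) := by
          exact_mod_cast card_filter_le _ _
      _ ≤ ((⌈(Y : ℝ) ^ υ⌉₊ - 1 : ℕ) : ℝ) := by
          rw [Nat.card_Ioc]
          exact_mod_cast Nat.sub_le _ _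
      _ ≤ _ := by
          have h3 : 1 ≤ ⌈(Y : ℝ) ^ υ⌉₊ := Nat.ceil_pos.2 (by positivity)
          have h4 := Nat.ceil_lt_add_one (show 0 ≤ (Y : ℝ) ^ υ by positivity)
          rw [Nat.cast_sub h3]
          push_cast
          linarith
  calc 2 * (∑ q ∈ pr Y ζ υ, (M : ℝ) / (q : ℝ) ^ 2 + ((pr Y ζ υ).card : ℝ)) ≤
      2 * (M * (2 / (Y : ℝ) ^ ζ) + (Y : ℝ) ^ υ) := by linarith
    _ = _ := by ring

open Classical in
/-- few positions with many bad values -/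
theorem bad_pos (Pr : ℕ → Prop) (X h : ℕ) (t : ℝ) (ht : 0 < t) :
    (((Icc 1 X).filter (fun N => (h : ℝ) / t <
      (((Icc 1 h).filter (fun j => Pr (N + j))).card : ℝ))).card : ℝ) ≤
      t * (((Icc 1 (X + h)).filter Pr).card : ℝ) := by
  rcases Nat.eq_zero_or_pos h with h0 | h0
  · subst h0
    simp only [Nat.cast_zero, zero_div]
    have : (Icc 1 X).filter (fun N => (0 : ℝ) <
      (((Icc 1 0).filter (fun j => Pr (N + j))).card : ℝ)) = ∅ := by
      apply filter_eq_empty_iff.2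
      intro N _
      simp
    rw [this]
    simp only [card_empty, Nat.cast_zero]
    positivity
  have hh : (0 : ℝ) < h := by exact_mod_cast h0
  set A := (Icc 1 X).filter (fun N => (h : ℝ) / t <
      (((Icc 1 h).filter (fun j => Pr (N + j))).card : ℝ)) with hA
  have h1 : (A.card : ℝ) * (h / t) ≤ ∑ N ∈ Icc 1 X, (((Icc 1 h).filter (fun j => Pr (N + j))).card : ℝ) := by
    calc (A.card : ℝ) * (h / t) = ∑ N ∈ A, (h / t : ℝ) := by rw [sum_const, nsmul_eq_mul]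
      _ ≤ ∑ N ∈ A, (((Icc 1 h).filter (fun j => Pr (N + j))).card : ℝ) := by
          apply sum_le_sum
          intro N hN
          rw [hA, mem_filter] at hN
          exact hN.2.le
      _ ≤ _ := sum_le_sum_of_subset_of_nonneg (filter_subset _ _) (fun _ _ _ => Nat.cast_nonneg _)
  have h2 : ∑ N ∈ Icc 1 X, (((Icc 1 h).filter (fun j => Pr (N + j))).card : ℝ) ≤
      h * (((Icc 1 (X + h)).filter Pr).card : ℝ) := by
    have h3 : ∑ N ∈ Icc 1 X, (((Icc 1 h).filter (fun j => Pr (N + j))).card : ℝ) =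
        ∑ j ∈ Icc 1 h, (((Icc 1 X).filter (fun N => Pr (N + j))).card : ℝ) := by
      simp_rw [card_filter]
      push_cast
      rw [sum_comm]
    rw [h3]
    calc ∑ j ∈ Icc 1 h, (((Icc 1 X).filter (fun N => Pr (N + j))).card : ℝ) ≤
        ∑ j ∈ Icc 1 h, (((Icc 1 (X + h)).filter Pr).card : ℝ) := by
          apply sum_le_sum
          intro j hj
          rw [mem_Icc] at hj
          have h4 : ((Icc 1 X).filter (fun N => Pr (N + j))).card ≤ ((Icc 1 (X + h)).filter Pr).card := by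
            apply card_le_card_of_injOn (fun N => N + j)
            · intro N hN
              rw [mem_coe, mem_filter, mem_Icc] at hN
              show N + j ∈ _
              rw [mem_coe, mem_filter, mem_Icc]
              exact ⟨⟨by omega, by omega⟩, hN.2⟩
            · intro x _ y _ hxy
              simpa using hxy
          exact_mod_cast h4
      _ = _ := by
          rw [sum_const, nsmul_eq_mul, Nat.card_Icc]
          simp
  have h3 := h1.trans h2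
  rw [mul_div_assoc', div_le_iff₀ ht] at h3
  have h4 : (A.card : ℝ) * h ≤ (t * (((Icc 1 (X + h)).filter Pr).card : ℝ)) * h := by
    calc (A.card : ℝ) * h ≤ h * (((Icc 1 (X + h)).filter Pr).card : ℝ) * t := h3
      _ = _ := by ring
  exact le_of_mul_le_mul_right h4 hh

end Pool.Agent.Y882.SI
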