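import Pool.Agent.Y882.PX.ErrX

/-! Values of polynomials in short intervals: mean square of the error terms over the positions. -/

set_option autoImplicit false

namespace Pool.Agent.Y882.SI

open Finset Polynomial
open H343 (ex)
open Pool.Agent.Y882.PX

/-- the roots modulo `q` -/
def RT (F : ℤ[X]) (q : ℕ) : Finset ℕ := (range q).filter (fun n : ℕ => (q : ℤ) ∣ F.eval (n : ℤ))

theorem RT_card (F : ℤ[X]) (q : ℕ) : (RT F q).card = ro F 0 q := by
  rw [ro_eq]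
  unfold RT
  simp

/-- number of `n` in `(N, N + h]` with `q ∣ F(n)` -/
def ci (F : ℤ[X]) (q h N : ℕ) : ℕ :=
  ((Icc 1 h).filter (fun j : ℕ => (q : ℤ) ∣ F.eval ((N + j : ℕ) : ℤ))).card

/-- the error term -/
noncomputable def ri (F : ℤ[X]) (q h N : ℕ) : ℝ := (ci F q h N : ℝ) - (h : ℝ) / q * ro F 0 q

/-- sum over the roots -/
noncomputable def RS (F : ℤ[X]) (q f b : ℕ) : ℂ := ∑ m ∈ RT F q, ex ((b : ℝ) * ((-(m : ℤ) : ℤ) : ℝ) / f)

/-- sum over the interval -/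
noncomputable def KS (h f b : ℕ) : ℂ := ∑ j ∈ Icc 1 h, ex ((b : ℝ) * ((j : ℤ) : ℝ) / f)

theorem dvd_eval_congr (F : ℤ[X]) (q : ℕ) (a b : ℤ) (h : (q : ℤ) ∣ a - b) :
    (q : ℤ) ∣ F.eval a ↔ (q : ℤ) ∣ F.eval b := by
  have h2 : (q : ℤ) ∣ F.eval a - F.eval b := h.trans (sub_dvd_eval_sub _ _ _)
  constructor
  · intro h3
    have := dvd_sub h3 h2
    rwa [sub_sub_cancel] at this
  · intro h3
    have := dvd_add h3 h2
    rwa [add_sub_cancel] at this

theorem one_root (F : ℤ[X]) (q : ℕ) (hq : 0 < q) (n : ℕ) :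
    ∑ m ∈ RT F q, (if (q : ℤ) ∣ (n : ℤ) - m then (1 : ℂ) else 0) =
      if (q : ℤ) ∣ F.eval (n : ℤ) then 1 else 0 := by
  have h1 : ∀ m ∈ RT F q, (if (q : ℤ) ∣ (n : ℤ) - m then (1 : ℂ) else 0) =
      if m = n % q then 1 else 0 := by
    intro m hm
    unfold RT at hm
    rw [mem_filter, mem_range] at hm
    have h2 : (q : ℤ) ∣ (n : ℤ) - ((n % q : ℕ) : ℤ) := by
      push_cast
      exact Int.dvd_self_sub_emod
    by_cases h : m = n % q
    · rw [if_pos h, if_pos (by rw [h]; exact h2)]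
    · rw [if_neg h, if_neg]
      intro h3
      apply h
      have h4 : (q : ℤ) ∣ (m : ℤ) - ((n % q : ℕ) : ℤ) := by
        have := dvd_sub h2 h3
        have e : (n : ℤ) - ((n % q : ℕ) : ℤ) - ((n : ℤ) - m) = (m : ℤ) - ((n % q : ℕ) : ℤ) := by ring
        rwa [e] at this
      have h5 : (m : ℤ) - ((n % q : ℕ) : ℤ) = 0 := by
        apply Int.eq_zero_of_abs_lt_dvd h4
        have := Nat.mod_lt n hq
        rw [abs_lt]
        constructor <;> omega
      omega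
  rw [sum_congr rfl h1, sum_ite_eq']
  have h2 : n % q ∈ RT F q ↔ (q : ℤ) ∣ F.eval (n : ℤ) := by
    unfold RT
    rw [mem_filter, mem_range]
    have h3 : (q : ℤ) ∣ (n : ℤ) - ((n % q : ℕ) : ℤ) := by
      push_cast
      exact Int.dvd_self_sub_emod
    constructor
    · rintro ⟨_, h⟩
      exact (dvd_eval_congr F q _ _ h3).2 h
    · intro h
      exact ⟨Nat.mod_lt _ hq, (dvd_eval_congr F q _ _ h3).1 h⟩
  by_cases h : (q : ℤ) ∣ F.eval (n : ℤ)
  · rw [if_pos h, if_pos (h2.2 h)]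
  · rw [if_neg h, if_neg (fun h3 => h (h2.1 h3))]

theorem ci_four (F : ℤ[X]) (q h N : ℕ) (hq : 0 < q) :
    (ci F q h N : ℂ) = 1 / q * ∑ b ∈ range q, ex ((b : ℝ) * N / q) * (RS F q q b * KS h q b) := by
  have hqC : (q : ℂ) ≠ 0 := by exact_mod_cast hq.ne'
  have h1 : ∀ b ∈ range q, ex ((b : ℝ) * N / q) * (RS F q q b * KS h q b) =
      ∑ j ∈ Icc 1 h, ∑ m ∈ RT F q, ex ((b : ℝ) * (((N + j : ℕ) : ℤ) - m : ℤ) / q) := by
    intro b _
    unfold RS KS
    rw [mul_comm (∑ m ∈ RT F q, _), sum_mul_sum, mul_sum]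
    apply sum_congr rfl
    intro j _
    rw [mul_sum]
    apply sum_congr rfl
    intro m _
    rw [← H343.Gauss.ex_add, ← H343.Gauss.ex_add]
    congr 1
    push_cast
    ring
  rw [sum_congr rfl h1, sum_comm]
  have h2 : ∀ j ∈ Icc 1 h, ∑ b ∈ range q, ∑ m ∈ RT F q,
      ex ((b : ℝ) * (((N + j : ℕ) : ℤ) - m : ℤ) / q) =
      q * (if (q : ℤ) ∣ F.eval ((N + j : ℕ) : ℤ) then (1 : ℂ) else 0) := by
    intro j _
    rw [sum_comm, ← one_root F q hq (N + j), mul_sum]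
    apply sum_congr rfl
    intro m _
    rw [H336V.RamanAux.geom q hq]
    split_ifs <;> simp
  rw [sum_congr rfl h2, ← mul_sum, ← mul_assoc, one_div_mul_cancel hqC, one_mul]
  unfold ci
  rw [card_filter]
  push_cast
  rfl

/-- the nonzero frequencies -/
noncomputable def Q2 (F : ℤ[X]) (q h f b : ℕ) : ℂ := if b = 0 then 0 else RS F q f b * KS h f b

theorem ri_four0 (F : ℤ[X]) (q h N : ℕ) (hq : 0 < q) :
    (ri F q h N : ℂ) = 1 / q * ∑ b ∈ range q, ex ((b : ℝ) * N / q) * Q2 F q h q b := by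
  have hqC : (q : ℂ) ≠ 0 := by exact_mod_cast hq.ne'
  have h0 : (0 : ℕ) ∈ range q := mem_range.2 hq
  have h1 : ∑ b ∈ range q, ex ((b : ℝ) * N / q) * (RS F q q b * KS h q b) =
      (ro F 0 q : ℂ) * h + ∑ b ∈ range q, ex ((b : ℝ) * N / q) * Q2 F q h q b := by
    rw [← add_sum_erase _ _ h0, ← add_sum_erase (range q)
      (fun b : ℕ => ex ((b : ℝ) * N / q) * Q2 F q h q b) h0]
    have h2 : ∀ b ∈ (range q).erase 0, ex ((b : ℝ) * N / q) * (RS F q q b * KS h q b) =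
        ex ((b : ℝ) * N / q) * Q2 F q h q b := by
      intro b hb
      rw [mem_erase] at hb
      unfold Q2
      rw [if_neg hb.1]
    rw [sum_congr rfl h2]
    have h3 : Q2 F q h q 0 = 0 := by unfold Q2; simp
    rw [h3, mul_zero, zero_add]
    congr 1
    unfold RS KS
    simp only [Nat.cast_zero, zero_mul, zero_div, H343.Gauss.ex_zero, sum_const, nsmul_eq_mul,
      mul_one, one_mul, RT_card, Nat.card_Icc, add_tsub_cancel_right]
  unfold ri
  push_cast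
  rw [ci_four F q h N hq, h1]
  generalize (∑ b ∈ range q, ex ((b : ℝ) * N / q) * Q2 F q h q b) = s
  field_simp
  ring

theorem ri_four (F : ℤ[X]) (q h N : ℕ) (hq : 0 < q) :
    (ri F q h N : ℂ) = 1 / q * ∑ f ∈ q.divisors, ∑ b ∈ (range f).filter (fun b => b.Coprime f),
      ex ((b : ℝ) * N / f) * Q2 F q h f b := by
  rw [ri_four0 F q h N hq, sum_reduced q hq (fun b => ex ((b : ℝ) * N / q) * Q2 F q h q b)]
  congr 1
  apply sum_congr rfl
  intro f hf
  rw [Nat.mem_divisors] at hf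
  obtain ⟨⟨c, hc⟩, _⟩ := hf
  have hf0 : 0 < f := Nat.pos_of_ne_zero (by rintro rfl; simp at hc; omega)
  have hc0 : 0 < c := Nat.pos_of_ne_zero (by rintro rfl; simp at hc; omega)
  apply sum_congr rfl
  intro b _
  have hqf : q / f = c := by rw [hc, Nat.mul_div_cancel_left c hf0]
  have e1 : ∀ m : ℤ, ex (((b * (q / f) : ℕ) : ℝ) * m / q) = ex ((b : ℝ) * m / f) := by
    intro m
    rw [hqf, hc]
    exact ex_frac f c hf0 hc0 b m
  have e2 : ex (((b * (q / f) : ℕ) : ℝ) * N / q) = ex ((b : ℝ) * N / f) := by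
    have := e1 N
    rwa [Int.cast_natCast] at this
  rw [e2]
  congr 1
  unfold Q2 RS KS
  by_cases hb : b = 0
  · subst hb; simp
  · have hb2 : ¬ b * (q / f) = 0 := by
      rw [hqf]
      exact Nat.mul_ne_zero hb hc0.ne'
    rw [if_neg hb, if_neg hb2]
    congr 1
    · exact sum_congr rfl fun m _ => e1 _
    · exact sum_congr rfl fun m _ => e1 _

theorem KS_add (h f b : ℕ) (hb : 0 < b) (hbf : b < f) : KS (h + f) f b = KS h f b := by
  have hf : 0 < f := by omega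
  unfold KS
  have h1 : Icc 1 (h + f) = Icc 1 h ∪ (range f).map (addLeftEmbedding (h + 1)) := by
    ext x
    simp only [mem_union, mem_Icc, mem_map, mem_range, addLeftEmbedding_apply]
    constructor
    · rintro ⟨h1, h2⟩
      rcases le_or_gt x h with h3 | h3
      · exact Or.inl ⟨h1, h3⟩
      · exact Or.inr ⟨x - (h + 1), by omega, by omega⟩
    · rintro (⟨h1, h2⟩ | ⟨y, h1, h2⟩) <;> omega
  rw [h1, sum_union, sum_map]
  · have h2 : ∀ x ∈ range f, ex ((b : ℝ) * (((addLeftEmbedding (h + 1)) x : ℤ) : ℝ) / f) =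
        ex ((b : ℝ) * (h + 1) / f) * ex ((x : ℝ) * (b : ℤ) / f) := by
      intro x _
      rw [← H343.Gauss.ex_add]
      congr 1
      simp only [addLeftEmbedding_apply]
      push_cast
      ring
    rw [sum_congr rfl h2, ← mul_sum, H336V.RamanAux.geom f hf, if_neg, mul_zero, add_zero]
    intro h3
    have := Int.le_of_dvd (by exact_mod_cast hb) h3
    omega
  · rw [disjoint_left]
    intro x hx hx'
    rw [mem_Icc] at hx
    rw [mem_map] at hx'
    obtain ⟨y, hy, hxy⟩ := hx'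
    simp only [addLeftEmbedding_apply] at hxy
    omega

theorem KS_mod (h f b : ℕ) (hb : 0 < b) (hbf : b < f) : KS h f b = KS (h % f) f b := by
  have h1 : ∀ k r : ℕ, KS (r + f * k) f b = KS r f b := by
    intro k r
    induction k with
    | zero => simp
    | succ k ih =>
      rw [Nat.mul_succ, ← add_assoc, KS_add _ f b hb hbf, ih]
  conv_lhs => rw [← Nat.mod_add_div h f]
  exact h1 _ _

theorem parse {ι : Type} [DecidableEq ι] (f : ℕ) (hf : 0 < f) (S : Finset ι) (φ : ι → ℤ) :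
    ∑ b ∈ range f, ‖∑ x ∈ S, ex ((b : ℝ) * (φ x : ℤ) / f)‖ ^ 2 =
      f * (((S ×ˢ S).filter (fun z => (f : ℤ) ∣ φ z.1 - φ z.2)).card : ℝ) := by
  have h1 : ∀ z : ℂ, ((‖z‖ ^ 2 : ℝ) : ℂ) = z * (starRingEnd ℂ) z := by
    intro z
    rw [Complex.mul_conj, Complex.normSq_eq_norm_sq]
  have h2 : ((∑ b ∈ range f, ‖∑ x ∈ S, ex ((b : ℝ) * (φ x : ℤ) / f)‖ ^ 2 : ℝ) : ℂ) =
      ((f * (((S ×ˢ S).filter (fun z => (f : ℤ) ∣ φ z.1 - φ z.2)).card : ℝ) : ℝ) : ℂ) := by
    rw [Complex.ofReal_sum]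
    simp_rw [h1, map_sum, sum_mul_sum]
    rw [sum_comm, card_filter]
    push_cast
    rw [sum_product, mul_sum]
    apply sum_congr rfl
    intro x _
    rw [sum_comm, mul_sum]
    apply sum_congr rfl
    intro y _
    have h3 : ∀ b ∈ range f, ex ((b : ℝ) * (φ x : ℤ) / f) *
        (starRingEnd ℂ) (ex ((b : ℝ) * (φ y : ℤ) / f)) =
        ex ((b : ℝ) * (φ x - φ y : ℤ) / f) := by
      intro b _
      rw [ex_conj, ← H343.Gauss.ex_add]
      congr 1
      push_cast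
      ring
    rw [sum_congr rfl h3, H336V.RamanAux.geom f hf]
    split_ifs <;> simp
  exact_mod_cast h2

theorem Q2_sq (F : ℤ[X]) (q h f : ℕ) (hf : 0 < f) (B : ℝ) (hB : (ro F 0 q : ℝ) ≤ B) :
    ∑ b ∈ range f, ‖Q2 F q h f b‖ ^ 2 ≤ f * (B ^ 2 * h) := by
  classical
  have hB0 : 0 ≤ B := le_trans (Nat.cast_nonneg _) hB
  set h' := h % f with hh'
  have hh'f : h' < f := Nat.mod_lt _ hf
  have hh'h : h' ≤ h := Nat.mod_le _ _
  have h1 : ∀ b ∈ range f, ‖Q2 F q h f b‖ ^ 2 ≤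
      ‖∑ x ∈ RT F q ×ˢ Icc 1 h', ex ((b : ℝ) * ((x.2 : ℤ) - (x.1 : ℤ) : ℤ) / f)‖ ^ 2 := by
    intro b hb
    rw [mem_range] at hb
    have h2 : ∑ x ∈ RT F q ×ˢ Icc 1 h', ex ((b : ℝ) * ((x.2 : ℤ) - (x.1 : ℤ) : ℤ) / f) =
        RS F q f b * KS h' f b := by
      unfold RS KS
      rw [sum_mul_sum, sum_product]
      apply sum_congr rfl
      intro m _
      apply sum_congr rfl
      intro j _
      rw [← H343.Gauss.ex_add]
      congr 1
      push_cast
      ring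
    rw [h2]
    unfold Q2
    by_cases h0 : b = 0
    · rw [if_pos h0]
      simp only [norm_zero, ne_eq, OfNat.ofNat_ne_zero, not_false_eq_true, zero_pow]
      positivity
    · rw [if_neg h0, KS_mod h f b (by omega) hb]
  refine (sum_le_sum h1).trans ?_
  rw [parse f hf (RT F q ×ˢ Icc 1 h') (fun x => (x.2 : ℤ) - (x.1 : ℤ))]
  apply mul_le_mul_of_nonneg_left _ (Nat.cast_nonneg _)
  have h3 : (((RT F q ×ˢ Icc 1 h') ×ˢ (RT F q ×ˢ Icc 1 h')).filter
      (fun z => (f : ℤ) ∣ ((z.1.2 : ℤ) - (z.1.1 : ℤ)) - ((z.2.2 : ℤ) - (z.2.1 : ℤ)))).card ≤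
      ((RT F q ×ˢ Icc 1 h') ×ˢ RT F q).card := by
    apply card_le_card_of_injOn (fun z => (z.1, z.2.1))
    · intro z hz
      rw [mem_coe, mem_filter, mem_product, mem_product, mem_product] at hz
      rw [mem_coe, mem_product, mem_product]
      exact ⟨hz.1.1, hz.1.2.1⟩
    · intro z hz w hw hzw
      rw [mem_coe, mem_filter, mem_product, mem_product, mem_product, mem_Icc, mem_Icc] at hz hw
      simp only [Prod.mk.injEq] at hzw
      obtain ⟨e1, e2⟩ := hzw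
      have h4 := hz.2
      have h5 := hw.2
      rw [← e1, ← e2] at h5
      have h6 := dvd_sub h4 h5
      have h7 : ((z.1.2 : ℤ) - (z.1.1 : ℤ)) - ((z.2.2 : ℤ) - (z.2.1 : ℤ)) -
          (((z.1.2 : ℤ) - (z.1.1 : ℤ)) - ((w.2.2 : ℤ) - (z.2.1 : ℤ))) = (w.2.2 : ℤ) - z.2.2 := by ring
      rw [h7] at h6
      have h8 : (w.2.2 : ℤ) - z.2.2 = 0 := by
        apply Int.eq_zero_of_abs_lt_dvd h6
        have a1 := hz.1.2.2
        have a2 := hw.1.2.2
        rw [abs_lt]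
        constructor <;> omega
      have h9 : z.2.2 = w.2.2 := by omega
      exact Prod.ext e1 (Prod.ext e2 h9)
  have h4 : ((RT F q ×ˢ Icc 1 h') ×ˢ RT F q).card = ro F 0 q * h' * ro F 0 q := by
    rw [card_product, card_product, RT_card, Nat.card_Icc]
    simp
  rw [h4] at h3
  have h5 : ((((RT F q ×ˢ Icc 1 h') ×ˢ (RT F q ×ˢ Icc 1 h')).filter
      (fun z => (f : ℤ) ∣ ((z.1.2 : ℤ) - (z.1.1 : ℤ)) - ((z.2.2 : ℤ) - (z.2.1 : ℤ)))).card : ℝ) ≤
      (ro F 0 q : ℝ) * h' * ro F 0 q := by exact_mod_cast h3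
  refine h5.trans ?_
  have h6 : (h' : ℝ) ≤ h := by exact_mod_cast hh'h
  calc (ro F 0 q : ℝ) * h' * ro F 0 q ≤ B * h * B := by
        apply mul_le_mul _ hB (Nat.cast_nonneg _) (by positivity)
        exact mul_le_mul hB h6 (Nat.cast_nonneg _) hB0
    _ = _ := by ring

theorem err_sq_int (F : ℤ[X]) (P : Finset ℕ) (hP : ∀ p ∈ P, p.Prime) (c : Finset ℕ → ℝ) (L : ℝ)
    (hL : ∀ T, |c T| ≤ L) (D : ℕ) (B : ℝ)
    (hB : ∀ T ⊆ P, ∏ p ∈ T, p ≤ D → (ro F 0 (∏ p ∈ T, p) : ℝ) ≤ B)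
    (hc : ∀ T ⊆ P, c T ≠ 0 → ∏ p ∈ T, p ≤ D) (X h : ℕ) :
    ∑ N ∈ Icc 1 X, (∑ T ∈ P.powerset, c T * ri F (∏ p ∈ T, p) h N) ^ 2 ≤
      6 * (X + (D : ℝ) ^ 2) * (L ^ 2 * (1 + Real.log D) ^ 3 * B ^ 2 * h) := by
  classical
  have hL0 : 0 ≤ L := (abs_nonneg _).trans (hL ∅)
  have hlD : 0 ≤ Real.log D := Real.log_natCast_nonneg D
  set S : ℕ → Finset (Finset ℕ) := fun f => P.powerset.filter
    (fun T => ∏ p ∈ T, p ≤ D ∧ f ∣ ∏ p ∈ T, p) with hS
  set G : ℕ → ℕ → ℂ := fun f b => ∑ T ∈ S f,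
    ((c T / ((∏ p ∈ T, p : ℕ) : ℝ) : ℝ) : ℂ) * Q2 F (∏ p ∈ T, p) h f b with hG
  have hpos : ∀ T ⊆ P, 0 < ∏ p ∈ T, p := fun T hT =>
    Nat.pos_of_ne_zero (prod_ne_zero_iff.2 fun p hp => (hP p (hT hp)).ne_zero)
  have key : ∀ N : ℕ, ((∑ T ∈ P.powerset, c T * ri F (∏ p ∈ T, p) h N : ℝ) : ℂ) =
      ∑ f ∈ Icc 1 D, ∑ b ∈ (range f).filter (fun b => b.Coprime f),
        ex ((N : ℝ) * b / f) * G f b := by
    intro N
    have h1 : ∀ f ∈ Icc 1 D, ∑ b ∈ (range f).filter (fun b => b.Coprime f),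
        ex ((N : ℝ) * b / f) * G f b = ∑ T ∈ P.powerset, if (∏ p ∈ T, p ≤ D ∧ f ∣ ∏ p ∈ T, p) then
          ((c T / ((∏ p ∈ T, p : ℕ) : ℝ) : ℝ) : ℂ) *
            ∑ b ∈ (range f).filter (fun b => b.Coprime f),
              ex ((b : ℝ) * N / f) * Q2 F (∏ p ∈ T, p) h f b else 0 := by
      intro f _
      rw [← sum_filter]
      simp only [hG]
      simp_rw [mul_sum]
      rw [sum_comm]
      apply sum_congr rfl
      intro T _
      apply sum_congr rfl
      intro b _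
      rw [mul_comm (b : ℝ) (N : ℝ)]
      ring
    rw [sum_congr rfl h1, sum_comm, Complex.ofReal_sum]
    apply sum_congr rfl
    intro T hT
    rw [mem_powerset] at hT
    by_cases hcT : c T = 0
    · simp [hcT]
    have hTD := hc T hT hcT
    have h2 : ∀ f ∈ Icc 1 D, (if (∏ p ∈ T, p ≤ D ∧ f ∣ ∏ p ∈ T, p) then
          ((c T / ((∏ p ∈ T, p : ℕ) : ℝ) : ℝ) : ℂ) *
            ∑ b ∈ (range f).filter (fun b => b.Coprime f),
              ex ((b : ℝ) * N / f) * Q2 F (∏ p ∈ T, p) h f b else 0) =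
        if f ∣ ∏ p ∈ T, p then ((c T / ((∏ p ∈ T, p : ℕ) : ℝ) : ℝ) : ℂ) *
            ∑ b ∈ (range f).filter (fun b => b.Coprime f),
              ex ((b : ℝ) * N / f) * Q2 F (∏ p ∈ T, p) h f b else 0 := by
      intro f _
      simp only [hTD, true_and]
    rw [sum_congr rfl h2, ← sum_filter]
    have h3 : (Icc 1 D).filter (fun f => f ∣ ∏ p ∈ T, p) = (∏ p ∈ T, p).divisors := by
      ext f
      rw [mem_filter, mem_Icc, Nat.mem_divisors]
      constructor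
      · rintro ⟨_, h⟩
        exact ⟨h, (hpos T hT).ne'⟩
      · rintro ⟨h, _⟩
        exact ⟨⟨Nat.pos_of_dvd_of_pos h (hpos T hT),
          (Nat.le_of_dvd (hpos T hT) h).trans hTD⟩, h⟩
    rw [h3, ← mul_sum]
    rw [Complex.ofReal_mul, ri_four F _ h N (hpos T hT)]
    push_cast
    ring
  have h1 : ∑ N ∈ Icc 1 X, (∑ T ∈ P.powerset, c T * ri F (∏ p ∈ T, p) h N) ^ 2 =
      ∑ N ∈ Icc 1 X, ‖∑ f ∈ Icc 1 D, ∑ b ∈ (range f).filter (fun b => b.Coprime f),
        ex ((N : ℝ) * b / f) * G f b‖ ^ 2 := by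
    apply sum_congr rfl
    intro N _
    rw [← key N, Complex.norm_real, Real.norm_eq_abs, sq_abs]
  rw [h1]
  refine (dual_nat X D G).trans ?_
  apply mul_le_mul_of_nonneg_left _ (by positivity)
  have h2 : ∀ f ∈ Icc 1 D, ∑ b ∈ (range f).filter (fun b => b.Coprime f), ‖G f b‖ ^ 2 ≤
      L ^ 2 * (1 + Real.log D) ^ 2 * B ^ 2 * h * (1 / (f : ℝ)) := by
    intro f hf
    rw [mem_Icc] at hf
    have hf0 : (0 : ℝ) < f := by exact_mod_cast hf.1
    set w : Finset ℕ → ℝ := fun T => |c T| / ((∏ p ∈ T, p : ℕ) : ℝ) with hw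
    have hw0 : ∀ T, 0 ≤ w T := fun T => by simp only [hw]; positivity
    set Wf : ℝ := ∑ T ∈ S f, w T with hWf
    have hWf0 : 0 ≤ Wf := sum_nonneg fun T _ => hw0 T
    have h3 : Wf ≤ L * ((1 + Real.log D) / f) := by
      calc Wf ≤ ∑ T ∈ S f, L * (1 / ((∏ p ∈ T, p : ℕ) : ℝ)) := by
            apply sum_le_sum
            intro T _
            simp only [hw]
            rw [div_eq_mul_one_div]
            exact mul_le_mul_of_nonneg_right (hL T) (by positivity)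
        _ = L * ∑ T ∈ S f, (1 / ((∏ p ∈ T, p : ℕ) : ℝ)) := by rw [mul_sum]
        _ ≤ _ := mul_le_mul_of_nonneg_left (tail_le P hP D f hf.1) hL0
    have h4 : ∀ b, ‖G f b‖ ^ 2 ≤ Wf * ∑ T ∈ S f, w T * ‖Q2 F (∏ p ∈ T, p) h f b‖ ^ 2 := by
      intro b
      have h5 : ‖G f b‖ ≤ ∑ T ∈ S f, w T * ‖Q2 F (∏ p ∈ T, p) h f b‖ := by
        simp only [hG]
        refine (norm_sum_le _ _).trans (le_of_eq ?_)
        apply sum_congr rfl
        intro T _
        rw [norm_mul, Complex.norm_real, Real.norm_eq_abs, abs_div, Nat.abs_cast]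
      calc ‖G f b‖ ^ 2 ≤ (∑ T ∈ S f, w T * ‖Q2 F (∏ p ∈ T, p) h f b‖) ^ 2 :=
            pow_le_pow_left₀ (norm_nonneg _) h5 2
        _ ≤ _ := by
            apply Finset.sum_sq_le_sum_mul_sum_of_sq_le_mul
            · intro T _; exact hw0 T
            · intro T _
              have := hw0 T
              positivity
            · intro T _
              exact le_of_eq (by ring)
    calc ∑ b ∈ (range f).filter (fun b => b.Coprime f), ‖G f b‖ ^ 2
        ≤ ∑ b ∈ range f, ‖G f b‖ ^ 2 :=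
          sum_le_sum_of_subset_of_nonneg (filter_subset _ _) (fun _ _ _ => by positivity)
      _ ≤ ∑ b ∈ range f, Wf * ∑ T ∈ S f, w T * ‖Q2 F (∏ p ∈ T, p) h f b‖ ^ 2 :=
          sum_le_sum fun b _ => h4 b
      _ = Wf * ∑ T ∈ S f, w T * ∑ b ∈ range f, ‖Q2 F (∏ p ∈ T, p) h f b‖ ^ 2 := by
          rw [← mul_sum, sum_comm]
          congr 1
          apply sum_congr rfl
          intro T _
          rw [mul_sum]
      _ ≤ Wf * ∑ T ∈ S f, w T * (f * (B ^ 2 * h)) := by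
          apply mul_le_mul_of_nonneg_left _ hWf0
          apply sum_le_sum
          intro T hT
          simp only [hS, mem_filter, mem_powerset] at hT
          exact mul_le_mul_of_nonneg_left (Q2_sq F _ h f hf.1 B (hB T hT.1 hT.2.1)) (hw0 T)
      _ = Wf ^ 2 * (f * (B ^ 2 * h)) := by
          rw [← sum_mul, ← hWf]
          ring
      _ ≤ (L * ((1 + Real.log D) / f)) ^ 2 * (f * (B ^ 2 * h)) := by
          apply mul_le_mul_of_nonneg_right (pow_le_pow_left₀ hWf0 h3 2) (by positivity)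
      _ = _ := by
          field_simp
  calc ∑ f ∈ Icc 1 D, ∑ b ∈ (range f).filter (fun b => b.Coprime f), ‖G f b‖ ^ 2
      ≤ ∑ f ∈ Icc 1 D, L ^ 2 * (1 + Real.log D) ^ 2 * B ^ 2 * h * (1 / (f : ℝ)) := sum_le_sum h2
    _ = L ^ 2 * (1 + Real.log D) ^ 2 * B ^ 2 * h * ∑ f ∈ Icc 1 D, (1 / (f : ℝ)) := by rw [mul_sum]
    _ ≤ L ^ 2 * (1 + Real.log D) ^ 2 * B ^ 2 * h * (1 + Real.log D) := by
        apply mul_le_mul_of_nonneg_left (harm_le D) (by positivity)
    _ = _ := by ring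

end Pool.Agent.Y882.SI
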